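import Mathlib

/-!
# Squad OD, CORE part 1: canonical representatives

Functions of a configuration on a finite graph, one-site averages, the spaces `Sub` and `Nul`,
and the canonical representative.
-/

set_option autoImplicit false
set_option linter.unusedSectionVars false
set_option linter.unusedVariables false

open Finset

namespace Pool.Agent.OD

section rep

variable {ι Q : Type} [Fintype ι] [DecidableEq ι] [Fintype Q] [DecidableEq Q]

/-- average over one coordinate -/
noncomputable def av (z : ι) (F : (ι → Q) → ℝ) : (ι → Q) → ℝ :=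
  fun x => (∑ b, F (Function.update x z b)) / (Fintype.card Q : ℝ)

/-- inner product over all configurations -/
noncomputable def ip (F G : (ι → Q) → ℝ) : ℝ := ∑ x, F x * G x

/-- slice -/
def sl (z : ι) (b : Q) (F : (ι → Q) → ℝ) : (ι → Q) → ℝ :=
  fun x => F (Function.update x z b)

/-- add the letter `b` to the forbidden letters at the sites of `S` -/
def addC (C : ι → Finset Q) (S : Finset ι) (b : Q) : ι → Finset Q :=
  fun z => if z ∈ S then insert b (C z) else C z

/-- functions of the configuration on `W` which vanish unless it is a proper colouring avoiding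
the forbidden letters -/
structure InSub (G : SimpleGraph ι) (W : Finset ι) (C : ι → Finset Q)
    (F : (ι → Q) → ℝ) : Prop where
  dep : ∀ x y : ι → Q, (∀ z ∈ W, x z = y z) → F x = F y
  lst : ∀ x : ι → Q, F x ≠ 0 → ∀ z ∈ W, x z ∉ C z
  prp : ∀ x : ι → Q, F x ≠ 0 → ∀ z ∈ W, ∀ w ∈ W, G.Adj z w → x z ≠ x w

/-- null functions -/
structure IsNul (G : SimpleGraph ι) (W : Finset ι) (C : ι → Finset Q)
    (N : (ι → Q) → ℝ) : Prop where
  sub : InSub G W C N
  nul : ∀ z ∈ W, av z N = 0

/-- `F` is the canonical representative of `L` -/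
def IsRep (G : SimpleGraph ι) (V : Finset ι) (C : ι → Finset Q) (L F : (ι → Q) → ℝ) : Prop :=
  InSub G V C F ∧ ∀ V' ⊆ V, ∀ N, IsNul G V' C N → ip F N = ip L N

/-- the flip of a pair -/
def flipE (z : ι) : ((ι → Q) × Q) ≃ ((ι → Q) × Q) where
  toFun p := (Function.update p.1 z p.2, p.1 z)
  invFun p := (Function.update p.1 z p.2, p.1 z)
  left_inv := by
    rintro ⟨x, b⟩
    simp
  right_inv := by
    rintro ⟨x, b⟩
    simp

theorem sum_flip (z : ι) (H : (ι → Q) → Q → ℝ) :
    ∑ x, ∑ b, H (Function.update x z b) (x z) = ∑ x, ∑ b, H x b := by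
  rw [← Fintype.sum_prod_type' (f := fun x b => H (Function.update x z b) (x z)),
    ← Fintype.sum_prod_type' (f := fun x b => H x b)]
  exact Fintype.sum_equiv (flipE z) _ _ (fun p => rfl)

theorem ip_av (z : ι) (F G : (ι → Q) → ℝ) : ip (av z F) G = ip F (av z G) := by
  unfold ip av
  have h := sum_flip z (fun x b => F x * G (Function.update x z b))
  simp only [Function.update_idem, Function.update_eq_self] at h
  have h1 : ∀ x : ι → Q, (∑ b, F (Function.update x z b)) / (Fintype.card Q : ℝ) * G x =
      (∑ b, F (Function.update x z b) * G x) / (Fintype.card Q : ℝ) := by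
    intro x
    rw [div_mul_eq_mul_div, Finset.sum_mul]
  have h2 : ∀ x : ι → Q, F x * ((∑ b, G (Function.update x z b)) / (Fintype.card Q : ℝ)) =
      (∑ b, F x * G (Function.update x z b)) / (Fintype.card Q : ℝ) := by
    intro x
    rw [← mul_div_assoc, Finset.mul_sum]
  simp only [h1, h2]
  rw [← Finset.sum_div, ← Finset.sum_div, h]

/-! ### linearity -/

theorem ip_sub_left (F F' G : (ι → Q) → ℝ) : ip (F - F') G = ip F G - ip F' G := by
  simp [ip, sub_mul, Finset.sum_sub_distrib]

theorem ip_add_left (F F' G : (ι → Q) → ℝ) : ip (F + F') G = ip F G + ip F' G := by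
  simp [ip, add_mul, Finset.sum_add_distrib]

theorem ip_smul_left (c : ℝ) (F G : (ι → Q) → ℝ) : ip (c • F) G = c * ip F G := by
  simp [ip, Finset.mul_sum, mul_assoc]

theorem ip_zero_right (F : (ι → Q) → ℝ) : ip F 0 = 0 := by simp [ip]

theorem av_sub (z : ι) (F F' : (ι → Q) → ℝ) : av z (F - F') = av z F - av z F' := by
  funext x
  simp [av, Finset.sum_sub_distrib, sub_div]

/-- the average of a function which does not depend on the coordinate -/
theorem av_of_indep [Nonempty Q] (z : ι) (F : (ι → Q) → ℝ)
    (h : ∀ x b, F (Function.update x z b) = F x) : av z F = F := by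
  funext x
  have hq : (Fintype.card Q : ℝ) ≠ 0 := by
    exact_mod_cast Fintype.card_ne_zero
  simp only [av, h, Finset.sum_const, Finset.card_univ, nsmul_eq_mul]
  field_simp

variable {G : SimpleGraph ι} {W V : Finset ι} {C C' : ι → Finset Q} {F F' L : (ι → Q) → ℝ}

theorem InSub.indep (h : InSub G W C F) {z : ι} (hz : z ∉ W) (x : ι → Q) (b : Q) :
    F (Function.update x z b) = F x := by
  refine h.dep _ _ fun w hw => ?_
  rw [Function.update_of_ne]
  rintro rfl
  exact hz hw

theorem InSub.add (h : InSub G W C F) (h' : InSub G W C F') : InSub G W C (F + F') where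
  dep x y hxy := by simp [h.dep x y hxy, h'.dep x y hxy]
  lst x hx := by
    by_cases h0 : F x = 0
    · exact h'.lst x (by simpa [h0] using hx)
    · exact h.lst x h0
  prp x hx := by
    by_cases h0 : F x = 0
    · exact h'.prp x (by simpa [h0] using hx)
    · exact h.prp x h0

theorem InSub.smul (h : InSub G W C F) (c : ℝ) : InSub G W C (c • F) where
  dep x y hxy := by simp [h.dep x y hxy]
  lst x hx := h.lst x (by
    intro h0
    exact hx (by simp [h0]))
  prp x hx := h.prp x (by
    intro h0
    exact hx (by simp [h0]))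

theorem InSub.zero : InSub G W C (0 : (ι → Q) → ℝ) where
  dep x y _ := rfl
  lst x hx := absurd rfl hx
  prp x hx := absurd rfl hx

theorem InSub.sub (h : InSub G W C F) (h' : InSub G W C F') : InSub G W C (F - F') := by
  have := h.add (h'.smul (-1))
  simpa [sub_eq_add_neg] using this

/-- fewer forbidden letters -/
theorem InSub.mono (h : InSub G W C' F) (hC : ∀ z ∈ W, C z ⊆ C' z) : InSub G W C F where
  dep := h.dep
  lst x hx z hz := fun hm => h.lst x hx z hz (hC z hz hm)
  prp := h.prp

theorem InSub.slice (h : InSub G W C F) (z : ι) (b : Q) :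
    InSub G (W.erase z) C (sl z b F) where
  dep x y hxy := by
    refine h.dep _ _ fun w hw => ?_
    by_cases hwz : w = z
    · subst hwz; simp
    · rw [Function.update_of_ne hwz, Function.update_of_ne hwz]
      exact hxy w (Finset.mem_erase.2 ⟨hwz, hw⟩)
  lst x hx w hw := by
    have hw' := Finset.mem_erase.1 hw
    have := h.lst _ hx w hw'.2
    rwa [Function.update_of_ne hw'.1] at this
  prp x hx w hw u hu hadj := by
    have hw' := Finset.mem_erase.1 hw
    have hu' := Finset.mem_erase.1 hu
    have := h.prp _ hx w hw'.2 u hu'.2 hadj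
    rwa [Function.update_of_ne hw'.1, Function.update_of_ne hu'.1] at this

theorem InSub.aver (h : InSub G W C F) (z : ι) :
    InSub G (W.erase z) C (av z F) where
  dep x y hxy := by
    unfold av
    congr 1
    refine Finset.sum_congr rfl fun b _ => ?_
    exact (h.slice z b).dep x y hxy
  lst x hx w hw := by
    have : ∃ b, F (Function.update x z b) ≠ 0 := by
      by_contra hcon
      push Not at hcon
      exact hx (by simp [av, hcon])
    obtain ⟨b, hb⟩ := this
    exact (h.slice z b).lst x hb w hw
  prp x hx w hw := by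
    have : ∃ b, F (Function.update x z b) ≠ 0 := by
      by_contra hcon
      push Not at hcon
      exact hx (by simp [av, hcon])
    obtain ⟨b, hb⟩ := this
    exact (h.slice z b).prp x hb w hw

/-- UNIQUENESS -/
theorem eq_zero_of_perp [Nonempty Q] (V : Finset ι) : ∀ (F : (ι → Q) → ℝ), InSub G V C F →
    (∀ V' ⊆ V, ∀ N, IsNul G V' C N → ip F N = 0) → F = 0 := by
  induction V using Finset.strongInduction with
  | H V ih =>
    intro F hF hperp
    have h1 : ∀ z ∈ V, av z F = 0 := by
      intro z hz
      refine ih (V.erase z) (Finset.erase_ssubset hz) (av z F) (hF.aver z) ?_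
      intro V' hV' N hN
      have hzV' : z ∉ V' := fun h => (Finset.mem_erase.1 (hV' h)).1 rfl
      rw [ip_av, av_of_indep z N (fun x b => hN.sub.indep hzV' x b)]
      exact hperp V' (hV'.trans (Finset.erase_subset _ _)) N hN
    have h2 : ip F F = 0 := hperp V (Finset.Subset.refl _) F ⟨hF, h1⟩
    unfold ip at h2
    rw [Finset.sum_eq_zero_iff_of_nonneg (fun x _ => mul_self_nonneg (F x))] at h2
    funext x
    exact mul_self_eq_zero.1 (h2 x (Finset.mem_univ _))

theorem IsRep.unique [Nonempty Q] (h : IsRep G V C L F) (h' : IsRep G V C L F') : F = F' := by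
  have := eq_zero_of_perp V (F - F') (h.1.sub h'.1) (by
    intro V' hV' N hN
    rw [ip_sub_left, h.2 V' hV' N hN, h'.2 V' hV' N hN, sub_self])
  exact sub_eq_zero.1 this

theorem IsRep.add {L' : (ι → Q) → ℝ} (h : IsRep G V C L F) (h' : IsRep G V C L' F') :
    IsRep G V C (L + L') (F + F') :=
  ⟨h.1.add h'.1, fun V' hV' N hN => by
    rw [ip_add_left, ip_add_left, h.2 V' hV' N hN, h'.2 V' hV' N hN]⟩

theorem IsRep.smul (h : IsRep G V C L F) (c : ℝ) : IsRep G V C (c • L) (c • F) :=
  ⟨h.1.smul c, fun V' hV' N hN => by
    rw [ip_smul_left, ip_smul_left, h.2 V' hV' N hN]⟩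

theorem IsRep.refl (h : InSub G V C F) : IsRep G V C F F := ⟨h, fun _ _ _ _ => rfl⟩

theorem IsNul.mono {N : (ι → Q) → ℝ} (h : IsNul G V C' N) (hC : ∀ z ∈ V, C z ⊆ C' z) :
    IsNul G V C N := ⟨h.sub.mono hC, h.nul⟩

/-- composition, more forbidden letters -/
theorem IsRep.trans {F2 : (ι → Q) → ℝ} (h : IsRep G V C L F) (h2 : IsRep G V C' F F2)
    (hC : ∀ z ∈ V, C z ⊆ C' z) : IsRep G V C' L F2 :=
  ⟨h2.1, fun V' hV' N hN => by
    rw [h2.2 V' hV' N hN, h.2 V' hV' N (hN.mono fun z hz => hC z (hV' hz))]⟩

/-- a function which does not depend on `z` is orthogonal to null functions of sets which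
contain `z` -/
theorem ip_nul [Nonempty Q] {N : (ι → Q) → ℝ} (hN : IsNul G V C N) {z : ι} (hz : z ∈ V)
    (hF : ∀ x b, F (Function.update x z b) = F x) : ip F N = 0 := by
  rw [← av_of_indep z F hF, ip_av, hN.nul z hz, ip_zero_right]

/-- marginal of a representative of a function of the other coordinates -/
theorem IsRep.av_eq [Nonempty Q] {u : ι} (hu : u ∈ V) (hL : InSub G (V.erase u) C L)
    (h : IsRep G V C L F) : av u F = L := by
  have := eq_zero_of_perp (V.erase u) (av u F - L) ((h.1.aver u).sub hL) (by
    intro V' hV' N hN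
    have huV' : u ∉ V' := fun hh => (Finset.mem_erase.1 (hV' hh)).1 rfl
    rw [ip_sub_left, ip_av, av_of_indep u N (fun x b => hN.sub.indep huV' x b),
      h.2 V' (hV'.trans (Finset.erase_subset _ _)) N hN, sub_self])
  exact sub_eq_zero.1 this

/-- one step: forbidding one letter at one site -/
theorem rep_step [Nonempty Q] {Ψ D : (ι → Q) → ℝ} {w : ι} {b : Q} (hw : w ∈ W)
    (hΨ : InSub G W C Ψ) (hD : IsRep G W (addC C {w} b) (sl w b Ψ) D) :
    IsRep G W (addC C {w} b) Ψ
      (fun x => if x w = b then 0 else Ψ x + D x / (Fintype.card Q : ℝ)) := by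
  have hq : (Fintype.card Q : ℝ) ≠ 0 := by
    exact_mod_cast Fintype.card_ne_zero
  have hslC : InSub G (W.erase w) (addC C {w} b) (sl w b Ψ) := by
    refine (hΨ.slice w b).mono fun z hz => ?_
    have hz' := (Finset.mem_erase.1 hz).1
    simp [addC, hz']
  set T : (ι → Q) → ℝ := fun x => if x w = b then 0 else Ψ x + D x / (Fintype.card Q : ℝ)
    with hT
  have hDw : ∀ x : ι → Q, x w = b → D x = 0 := by
    intro x hx
    by_contra h0
    have := hD.1.lst x h0 w hw
    simp [addC, hx] at this
  have hsub : InSub G W (addC C {w} b) T := by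
    refine ⟨?_, ?_, ?_⟩
    · intro x y hxy
      simp only [hT]
      rw [hxy w hw, hΨ.dep x y hxy, hD.1.dep x y hxy]
    · intro x hx z hz
      have hxw : x w ≠ b := by
        intro h
        exact hx (by simp [hT, h])
      by_cases h0 : D x = 0
      · have h1 : Ψ x ≠ 0 := by
          intro h1
          exact hx (by simp [hT, h0, h1])
        have h2 := hΨ.lst x h1 z hz
        unfold addC
        split_ifs with hzw
        · rw [Finset.mem_singleton] at hzw
          subst hzw
          simp [hxw, h2]
        · exact h2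
      · exact hD.1.lst x h0 z hz
    · intro x hx
      by_cases h0 : D x = 0
      · have h1 : Ψ x ≠ 0 := by
          intro h1
          exact hx (by simp [hT, h0, h1])
        exact hΨ.prp x h1
      · exact hD.1.prp x h0
  refine ⟨hsub, ?_⟩
  intro V' hV' N hN
  by_cases hwV : w ∈ V'
  · -- the null function vanishes when `x w = b`
    have hNw : ∀ x : ι → Q, x w = b → N x = 0 := by
      intro x hx
      by_contra h0
      have := hN.sub.lst x h0 w hwV
      simp [addC, hx] at this
    have h1 : ip T N = ip Ψ N + ip D N / (Fintype.card Q : ℝ) := by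
      unfold ip
      rw [Finset.sum_div, ← Finset.sum_add_distrib]
      refine Finset.sum_congr rfl fun x _ => ?_
      simp only [hT]
      split_ifs with hx
      · rw [hNw x hx]; ring
      · ring
    rw [h1, hD.2 V' hV' N hN, ip_nul (F := sl w b Ψ) hN hwV (by intro x c; simp [sl]),
      zero_div, add_zero]
  · -- average over the coordinate `w`
    have hav : av w D = sl w b Ψ := hD.av_eq hw hslC
    have hTav : av w T = av w Ψ := by
      funext x
      have hd := congrFun hav x
      simp only [av, sl] at hd ⊢
      rw [div_eq_iff hq] at hd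
      have h3 : ∀ c, T (Function.update x w c) = (if c = b then 0 else
          Ψ (Function.update x w c)) + D (Function.update x w c) / (Fintype.card Q : ℝ) := by
        intro c
        simp only [hT, Function.update_self]
        split_ifs with hc
        · rw [hDw _ (by simp [hc])]; simp
        · rfl
      simp only [h3]
      rw [Finset.sum_add_distrib, ← Finset.sum_div, hd]
      have h4 : ∑ c, Ψ (Function.update x w c) = Ψ (Function.update x w b) +
          ∑ c, (if c = b then 0 else Ψ (Function.update x w c)) := by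
        rw [← Finset.add_sum_erase _ _ (Finset.mem_univ b)]
        congr 1
        rw [← Finset.add_sum_erase _ (fun c => if c = b then 0 else
          Ψ (Function.update x w c)) (Finset.mem_univ b)]
        simp only [if_true, zero_add]
        refine Finset.sum_congr rfl fun c hc => ?_
        rw [if_neg (Finset.ne_of_mem_erase hc)]
      rw [h4, mul_div_assoc, div_self hq]
      ring
    have hNi : ∀ x c, N (Function.update x w c) = N x := fun x c => hN.sub.indep hwV x c
    rw [← av_of_indep w N hNi, ← ip_av, hTav, ip_av]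

end rep

end Pool.Agent.OD
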