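import Mathlib
import Pool.Agent.Helper42_OD.Rep

/-!
# Squad OD, CORE part 2: insertion of a vertex
-/

set_option autoImplicit false
set_option linter.unusedSectionVars false
set_option linter.unusedVariables false

open Finset

namespace Pool.Agent.OD

section ins

variable {ι Q : Type} [Fintype ι] [DecidableEq ι] [Fintype Q] [DecidableEq Q]
variable {G : SimpleGraph ι} {W V : Finset ι} {C C' : ι → Finset Q} {F F' L : (ι → Q) → ℝ}

theorem sum_av (z : ι) (H : (ι → Q) → ℝ) :
    ∑ x, ∑ b, H (Function.update x z b) = (Fintype.card Q : ℝ) * ∑ x, H x := by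
  have := sum_flip z (fun (x : ι → Q) (_ : Q) => H x)
  simp only at this
  rw [this]
  simp [Finset.mul_sum]

theorem av_sl {z u : ι} (hzu : z ≠ u) (b : Q) (N : (ι → Q) → ℝ) :
    av z (sl u b N) = sl u b (av z N) := by
  funext x
  simp only [av, sl]
  congr 1
  refine Finset.sum_congr rfl fun c _ => ?_
  rw [Function.update_comm hzu]

theorem ip_sum_right {κ : Type} (s : Finset κ) (F : (ι → Q) → ℝ) (N : κ → (ι → Q) → ℝ) :
    ∑ b ∈ s, ip F (N b) = ip F (fun x => ∑ b ∈ s, N b x) := by
  unfold ip
  rw [Finset.sum_comm]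
  refine Finset.sum_congr rfl fun x _ => ?_
  rw [Finset.mul_sum]

/-- slices of null functions are null functions with more forbidden letters -/
theorem IsNul.slice {N : (ι → Q) → ℝ} {V' S : Finset ι} {u : ι} (hN : IsNul G V' C N)
    (hu : u ∈ V') (b : Q) (hS : ∀ z ∈ V', z ∈ S → G.Adj u z) :
    IsNul G (V'.erase u) (addC C S b) (sl u b N) := by
  refine ⟨⟨(hN.sub.slice u b).dep, ?_, (hN.sub.slice u b).prp⟩, ?_⟩
  · intro x hx z hz
    have hz' := Finset.mem_erase.1 hz
    have h1 := (hN.sub.slice u b).lst x hx z hz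
    unfold addC
    split_ifs with hzS
    · have h2 := hN.sub.prp _ hx u hu z hz'.2 (hS z hz'.2 hzS)
      rw [Function.update_self, Function.update_of_ne hz'.1] at h2
      rw [Finset.mem_insert, not_or]
      exact ⟨fun h => h2 h.symm, h1⟩
    · exact h1
  · intro z hz
    have hz' := Finset.mem_erase.1 hz
    rw [av_sl hz'.1, hN.nul z hz'.2]
    rfl

/-- INSERTION of the vertex `u` -/
theorem rep_insert [Nonempty Q] {u : ι} (hu : u ∉ W) {S : Finset ι}
    (hS : ∀ z, z ∈ S ↔ z ∈ W ∧ G.Adj u z) {Ψ Φ : (ι → Q) → ℝ} {A : Q → (ι → Q) → ℝ}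
    (hA : ∀ b, b ∉ C u → IsRep G W (addC C S b) Ψ (A b)) (hΦ : InSub G W C Φ)
    {ℓ : ℝ} (hℓ : ℓ ≠ 0)
    (hK : ∀ x, ∑ b ∈ Finset.univ.filter (fun b => b ∉ C u), A b x = ℓ * Φ x) :
    IsRep G (insert u W) C Φ
      (fun x => if x u ∈ C u then 0 else ((Fintype.card Q : ℝ) / ℓ) * A (x u) x) := by
  have hq : (Fintype.card Q : ℝ) ≠ 0 := by
    exact_mod_cast Fintype.card_ne_zero
  set F : (ι → Q) → ℝ :=
    fun x => if x u ∈ C u then 0 else ((Fintype.card Q : ℝ) / ℓ) * A (x u) x with hF
  have hne : ∀ x, F x ≠ 0 → x u ∉ C u ∧ A (x u) x ≠ 0 := by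
    intro x hx
    constructor
    · intro h
      exact hx (by simp [hF, h])
    · intro h
      exact hx (by simp [hF, h])
  have hSub : InSub G (insert u W) C F := by
    refine ⟨?_, ?_, ?_⟩
    · intro x y hxy
      have h1 : x u = y u := hxy u (Finset.mem_insert_self _ _)
      simp only [hF, ← h1]
      split_ifs with hxu
      · rfl
      · rw [(hA (x u) hxu).1.dep x y fun z hz => hxy z (Finset.mem_insert_of_mem hz)]
    · intro x hx z hz
      obtain ⟨h1, h2⟩ := hne x hx
      rcases Finset.mem_insert.1 hz with rfl | hz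
      · exact h1
      · have h3 := (hA (x u) h1).1.lst x h2 z hz
        intro h4
        apply h3
        unfold addC
        split_ifs
        · exact Finset.mem_insert_of_mem h4
        · exact h4
    · intro x hx z hz w hw hadj
      obtain ⟨h1, h2⟩ := hne x hx
      have key : ∀ w ∈ W, G.Adj u w → x w ≠ x u := by
        intro w hw hadj
        have h3 := (hA (x u) h1).1.lst x h2 w hw
        have hwS : w ∈ S := (hS w).2 ⟨hw, hadj⟩
        intro h4
        apply h3
        simp [addC, hwS, h4]
      rcases Finset.mem_insert.1 hz with hzu | hzW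
      · rcases Finset.mem_insert.1 hw with hwu | hwW
        · rw [hzu, hwu] at hadj
          exact absurd hadj (G.loopless.irrefl _)
        · rw [hzu] at hadj ⊢
          exact (key w hwW hadj).symm
      · rcases Finset.mem_insert.1 hw with hwu | hwW
        · rw [hwu] at hadj ⊢
          exact key z hzW hadj.symm
        · exact (hA (x u) h1).1.prp x h2 z hzW w hwW hadj
  refine ⟨hSub, ?_⟩
  intro V' hV' N hN
  have hΦi : ∀ x b, Φ (Function.update x u b) = Φ x := fun x b => hΦ.indep hu x b
  by_cases huV : u ∈ V'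
  · rw [ip_nul hN huV hΦi]
    have hslN : ∀ b, b ∉ C u → IsNul G (V'.erase u) (addC C S b) (sl u b N) := fun b _ =>
      hN.slice huV b fun z _ hzS => ((hS z).1 hzS).2
    have hsub' : V'.erase u ⊆ W := by
      intro z hz
      have hz' := Finset.mem_erase.1 hz
      rcases Finset.mem_insert.1 (hV' hz'.2) with h | h
      · exact absurd h hz'.1
      · exact h
    have h1 : (Fintype.card Q : ℝ) * ip F N = ((Fintype.card Q : ℝ) / ℓ) *
        ∑ b ∈ Finset.univ.filter (fun b => b ∉ C u), ip (A b) (sl u b N) := by
      unfold ip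
      rw [← sum_av u (fun x => F x * N x), Finset.sum_comm, Finset.mul_sum, Finset.sum_filter]
      refine Finset.sum_congr rfl fun b _ => ?_
      by_cases hb : b ∈ C u
      · rw [if_neg (not_not.2 hb)]
        refine Finset.sum_eq_zero fun x _ => ?_
        simp [hF, hb]
      · rw [if_pos hb, Finset.mul_sum]
        refine Finset.sum_congr rfl fun x _ => ?_
        simp only [hF, Function.update_self, if_neg hb, sl]
        rw [(hA b hb).1.indep hu x b]
        ring
    have h2 : ∑ b ∈ Finset.univ.filter (fun b => b ∉ C u), ip (A b) (sl u b N) = 0 := by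
      have h3 : ∀ b ∈ Finset.univ.filter (fun b => b ∉ C u), ip (A b) (sl u b N) =
          ip Ψ (sl u b N) := by
        intro b hb
        have hb' := (Finset.mem_filter.1 hb).2
        exact (hA b hb').2 _ hsub' _ (hslN b hb')
      rw [Finset.sum_congr rfl h3, ip_sum_right]
      have h4 : (fun x => ∑ b ∈ Finset.univ.filter (fun b => b ∉ C u), sl u b N x) =
          fun x => (0 : ℝ) := by
        funext x
        have h5 := congrFun (hN.nul u huV) x
        simp only [av, Pi.zero_apply, div_eq_zero_iff, hq, or_false] at h5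
        rw [Finset.sum_filter]
        refine (Finset.sum_congr rfl fun b _ => ?_).trans h5
        by_cases hb : b ∈ C u
        · rw [if_neg (not_not.2 hb)]
          by_contra h6
          have := hN.sub.lst _ (fun h => h6 h.symm) u huV
          rw [Function.update_self] at this
          exact this hb
        · rw [if_pos hb]
          rfl
      rw [h4]
      simp [ip]
    rw [h2, mul_zero] at h1
    exact (mul_eq_zero.1 h1).resolve_left hq
  · have hNi : ∀ x b, N (Function.update x u b) = N x := fun x b => hN.sub.indep huV x b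
    have hav : av u F = Φ := by
      funext x
      simp only [av, hF, Function.update_self]
      have h3 : ∀ b, (if b ∈ C u then (0 : ℝ) else
          (Fintype.card Q : ℝ) / ℓ * A b (Function.update x u b)) =
          if b ∉ C u then (Fintype.card Q : ℝ) / ℓ * A b x else 0 := by
        intro b
        by_cases hb : b ∈ C u
        · simp [hb]
        · rw [if_neg hb, if_pos hb, (hA b hb).1.indep hu x b]
      simp only [h3]
      rw [← Finset.sum_filter, ← Finset.mul_sum, hK x]
      field_simp
    have h7 : ip F N = ip F (av u N) := by rw [av_of_indep u N hNi]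
    rw [h7, ← ip_av, hav]

/-- representatives of functions of fewer coordinates can be computed in two steps -/
theorem IsRep.lift [Nonempty Q] {u : ι} {Φ : (ι → Q) → ℝ}
    (h : IsRep G (V.erase u) C L Φ) (hL : ∀ x b, L (Function.update x u b) = L x)
    (h2 : IsRep G V C Φ F) : IsRep G V C L F := by
  refine ⟨h2.1, fun V' hV' N hN => ?_⟩
  rw [h2.2 V' hV' N hN]
  by_cases huV : u ∈ V'
  · rw [ip_nul hN huV hL, ip_nul hN huV]
    intro x b
    exact h.1.indep (Finset.notMem_erase u V) x b
  · refine h.2 V' ?_ N hN
    intro z hz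
    refine Finset.mem_erase.2 ⟨?_, hV' hz⟩
    rintro rfl
    exact huV hz

end ins

end Pool.Agent.OD
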