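import Mathlib
import Pool.Agent.Helper42_OD.Ins

/-!
# Squad OD, CORE part 3: the Harnack induction
-/

set_option autoImplicit false
set_option linter.unusedSectionVars false
set_option linter.unusedVariables false

open Finset

namespace Pool.Agent.OD

theorem pow_bound {s m : ℝ} {n Δ : ℕ} (hs : s = (392 / 165) / m) (hn : n ≤ Δ)
    (hm : 21 * (Δ : ℝ) ≤ m) (hm0 : 0 < m) : (1 + s) ^ n ≤ 28 / 25 := by
  have hs0 : 0 ≤ s := by rw [hs]; positivity
  have h1 : (1 + s) ^ n ≤ Real.exp (n * s) := by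
    rw [Real.exp_nat_mul]
    refine pow_le_pow_left₀ (by positivity) ?_ n
    have := Real.add_one_le_exp s
    linarith
  have h2 : (n : ℝ) * s ≤ 56 / 495 := by
    have h3 : (n : ℝ) ≤ m / 21 := by
      have : (n : ℝ) ≤ Δ := by exact_mod_cast hn
      linarith
    calc (n : ℝ) * s ≤ (m / 21) * s := mul_le_mul_of_nonneg_right h3 hs0
      _ = 56 / 495 := by rw [hs]; field_simp; norm_num
  have h3 : Real.exp (n * s) ≤ Real.exp (56 / 495) := Real.exp_le_exp.2 h2
  have h4 : Real.exp (56 / 495) ≤ 28 / 25 := by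
    have := Real.exp_bound' (x := 56 / 495) (by norm_num) (by norm_num) (n := 3) (by norm_num)
    refine this.trans ?_
    norm_num [Finset.sum_range_succ, Nat.factorial]
  linarith

section bound

variable {ι : Type} [Fintype ι] [DecidableEq ι]

/-- the canonical density -/
noncomputable def fV (Q : Type) [Fintype Q] [DecidableEq Q] (G : SimpleGraph ι)
    (V : Finset ι) : (ι → Q) → ℝ := by
  classical exact
    if h : ∃ F, IsRep G V (fun _ => (∅ : Finset Q)) (fun _ => 1) F then Classical.choose h else 0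

variable {Q : Type} [Fintype Q] [DecidableEq Q]
variable {G : SimpleGraph ι} [DecidableRel G.Adj] {Δ : ℕ}
variable {W V : Finset ι} {C C' : ι → Finset Q} {F F' L : (ι → Q) → ℝ}

omit [DecidableRel G.Adj] in
theorem fV_rep (h : ∃ F, IsRep G V (fun _ => (∅ : Finset Q)) (fun _ => 1) F) :
    IsRep G V (fun _ => (∅ : Finset Q)) (fun _ => 1) (fV Q G V) := by
  classical
  unfold fV
  rw [dif_pos h]
  exact Classical.choose_spec h

omit [DecidableRel G.Adj] in
theorem fV_eq [Nonempty Q] (h : IsRep G V (fun _ => (∅ : Finset Q)) (fun _ => 1) F) :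
    fV Q G V = F := (fV_rep ⟨F, h⟩).unique h

/-- the degree condition for a context -/
def Ctx (G : SimpleGraph ι) [DecidableRel G.Adj] (Δ : ℕ) (V : Finset ι)
    (C : ι → Finset Q) : Prop :=
  ∀ z ∈ V, (C z).card + (V.filter (G.Adj z)).card ≤ Δ

theorem Ctx.mono {S S' : Finset ι} {b : Q} (h : Ctx G Δ V (addC C S' b)) (hS : S ⊆ S') :
    Ctx G Δ V (addC C S b) := by
  intro z hz
  refine le_trans ?_ (h z hz)
  refine Nat.add_le_add_right (Finset.card_le_card ?_) _
  unfold addC
  split_ifs with h1 h2 h2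
  · exact Finset.Subset.refl _
  · exact absurd (hS h1) h2
  · exact Finset.subset_insert _ _
  · exact Finset.Subset.refl _

theorem Ctx.add {u : ι} (hu : u ∉ W) (h : Ctx G Δ (insert u W) C) (b : Q) :
    Ctx G Δ W (addC C (W.filter (G.Adj u)) b) := by
  intro z hz
  have hzu : z ≠ u := by
    rintro rfl
    exact hu hz
  have h1 := h z (Finset.mem_insert_of_mem hz)
  by_cases hadj : G.Adj u z
  · have h2 : (addC C (W.filter (G.Adj u)) b) z = insert b (C z) := by
      simp [addC, hz, hadj]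
    rw [h2]
    have h3 : (insert u W).filter (G.Adj z) = insert u (W.filter (G.Adj z)) := by
      rw [Finset.filter_insert, if_pos hadj.symm]
    rw [h3, Finset.card_insert_of_notMem (by simp [hu])] at h1
    have h4 := Finset.card_insert_le b (C z)
    omega
  · have h2 : (addC C (W.filter (G.Adj u)) b) z = C z := by
      simp [addC, hadj]
    rw [h2]
    refine le_trans (Nat.add_le_add_left (Finset.card_le_card ?_) _) h1
    exact Finset.filter_subset_filter _ (Finset.subset_insert _ _)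

/-- the induction statement -/
structure Good (Q : Type) [Fintype Q] [DecidableEq Q] (G : SimpleGraph ι) [DecidableRel G.Adj]
    (Δ : ℕ) (V : Finset ι) : Prop where
  rep : IsRep G V (fun _ => (∅ : Finset Q)) (fun _ => 1) (fV Q G V)
  pos : ∀ x : ι → Q, (∀ z ∈ V, ∀ w ∈ V, G.Adj z w → x z ≠ x w) → 0 < fV Q G V x
  up : ∀ u ∈ V, ∀ x, fV Q G V x ≤ 4 / 3 * fV Q G (V.erase u) x
  lo : ∀ u ∈ V, ∀ x : ι → Q, (∀ z ∈ V, ∀ w ∈ V, G.Adj z w → x z ≠ x w) →
    5 / 7 * fV Q G (V.erase u) x ≤ fV Q G V x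
  ext : ∀ C : ι → Finset Q, Ctx G Δ V C → ∀ u ∈ V, ∀ Φ : (ι → Q) → ℝ,
    InSub G (V.erase u) C Φ → ∃ F, IsRep G V C Φ F ∧ ∀ t : ℝ, 0 ≤ t →
      (∀ x, |Φ x| ≤ t * fV Q G (V.erase u) x) → ∀ x,
      |F x| ≤ ((Fintype.card Q : ℝ) / ((Fintype.card Q : ℝ) - Δ)) * (14 / 11) * t *
        fV Q G (V.erase u) x

theorem Good.nonneg (h : Good Q G Δ V) (x : ι → Q) : 0 ≤ fV Q G V x := by
  by_cases hx : fV Q G V x = 0
  · exact hx.ge
  · exact (h.pos x (h.rep.1.prp x hx)).le

/-- one step with its bound -/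
theorem one_step [Nonempty Q] (hq : 22 * Δ ≤ Fintype.card Q) (hW : Good Q G Δ W) {w : ι}
    (hw : w ∈ W) (hWw : ∀ x : ι → Q, 0 ≤ fV Q G (W.erase w) x) {b : Q}
    (hctx : Ctx G Δ W (addC C {w} b)) {Ψ : (ι → Q) → ℝ} (hΨ : InSub G W C Ψ) :
    ∃ F, IsRep G W (addC C {w} b) Ψ F ∧ ∀ t : ℝ, 0 ≤ t → (∀ x, |Ψ x| ≤ t * fV Q G W x) →
      ∀ x, x w ≠ b →
        |F x - Ψ x| ≤ ((392 / 165) / ((Fintype.card Q : ℝ) - Δ)) * t * fV Q G W x := by
  have hq0 : (0 : ℝ) < Fintype.card Q := by exact_mod_cast Fintype.card_pos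
  have hqr : 22 * (Δ : ℝ) ≤ Fintype.card Q := by exact_mod_cast hq
  have hm : (0 : ℝ) < (Fintype.card Q : ℝ) - Δ := by
    have : (0 : ℝ) ≤ Δ := Nat.cast_nonneg _
    linarith
  have hsl : InSub G (W.erase w) (addC C {w} b) (sl w b Ψ) := by
    refine (hΨ.slice w b).mono fun z hz => ?_
    have hz' := (Finset.mem_erase.1 hz).1
    simp [addC, hz']
  obtain ⟨D, hD, hDb⟩ := hW.ext _ hctx w hw _ hsl
  refine ⟨_, rep_step hw hΨ hD, ?_⟩
  intro t ht hΨt x hxw
  rw [if_neg hxw, add_sub_cancel_left, abs_div, abs_of_pos hq0]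
  have hslb : ∀ x, |sl w b Ψ x| ≤ (t * (4 / 3)) * fV Q G (W.erase w) x := by
    intro x
    have h1 := hΨt (Function.update x w b)
    have h2 := hW.up w hw (Function.update x w b)
    have h3 : fV Q G (W.erase w) (Function.update x w b) = fV Q G (W.erase w) x := by
      unfold fV
      split_ifs with h
      · exact (Classical.choose_spec h).1.indep (Finset.notMem_erase w W) x b
      · rfl
    rw [h3] at h2
    calc |sl w b Ψ x| ≤ t * fV Q G W (Function.update x w b) := h1
      _ ≤ t * (4 / 3 * fV Q G (W.erase w) x) := mul_le_mul_of_nonneg_left h2 ht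
      _ = _ := by ring
  have h4 := hDb (t * (4 / 3)) (by positivity) hslb x
  by_cases hDx : D x = 0
  · rw [hDx, abs_zero, zero_div]
    have := hW.nonneg x
    positivity
  · have h5 := hW.lo w hw x (hD.1.prp x hDx)
    have h6 := hWw x
    rw [div_le_iff₀ hq0]
    refine h4.trans ?_
    have h7 : fV Q G (W.erase w) x ≤ 7 / 5 * fV Q G W x := by linarith
    calc (Fintype.card Q : ℝ) / ((Fintype.card Q : ℝ) - Δ) * (14 / 11) * (t * (4 / 3)) *
          fV Q G (W.erase w) x
        ≤ (Fintype.card Q : ℝ) / ((Fintype.card Q : ℝ) - Δ) * (14 / 11) * (t * (4 / 3)) *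
          (7 / 5 * fV Q G W x) := by
          refine mul_le_mul_of_nonneg_left h7 ?_
          positivity
      _ = (392 / 165) / ((Fintype.card Q : ℝ) - Δ) * t * fV Q G W x * (Fintype.card Q : ℝ) := by
          ring

/-- many steps with their bound -/
theorem multi_step [Nonempty Q] (hq : 22 * Δ ≤ Fintype.card Q) (hW : Good Q G Δ W)
    (hWw : ∀ w ∈ W, ∀ x : ι → Q, 0 ≤ fV Q G (W.erase w) x) {b : Q} (S : Finset ι) :
    ∀ (hSW : S ⊆ W) (hctx : Ctx G Δ W (addC C S b)) {Ψ : (ι → Q) → ℝ} (hΨ : InSub G W C Ψ),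
    ∃ F, IsRep G W (addC C S b) Ψ F ∧ ∀ t : ℝ, 0 ≤ t → (∀ x, |Ψ x| ≤ t * fV Q G W x) →
      ∀ x, (∀ z ∈ S, x z ≠ b) →
        |F x - Ψ x| ≤ ((1 + (392 / 165) / ((Fintype.card Q : ℝ) - Δ)) ^ S.card - 1) * t *
          fV Q G W x := by
  have hqr : 22 * (Δ : ℝ) ≤ Fintype.card Q := by exact_mod_cast hq
  have hq0 : (0 : ℝ) < Fintype.card Q := by exact_mod_cast Fintype.card_pos
  have hm : (0 : ℝ) < (Fintype.card Q : ℝ) - Δ := by
    have : (0 : ℝ) ≤ Δ := Nat.cast_nonneg _
    linarith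
  set s : ℝ := (392 / 165) / ((Fintype.card Q : ℝ) - Δ) with hs
  have hs0 : 0 ≤ s := by positivity
  induction S using Finset.induction with
  | empty =>
    intro hSW hctx Ψ hΨ
    have h1 : addC C ∅ b = C := by
      funext z
      simp [addC]
    rw [h1]
    exact ⟨Ψ, IsRep.refl hΨ, fun t ht h x _ => by simp⟩
  | insert w S hwS ih =>
    intro hSW hctx Ψ hΨ
    obtain ⟨F1, hF1, hb1⟩ := ih ((Finset.subset_insert _ _).trans hSW)
      (hctx.mono (Finset.subset_insert _ _)) hΨ
    have hw : w ∈ W := hSW (Finset.mem_insert_self _ _)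
    have h2 : addC (addC C S b) {w} b = addC C (insert w S) b := by
      funext z
      unfold addC
      by_cases hzw : z = w
      · subst hzw
        simp [hwS]
      · simp [hzw]
    have hctx2 : Ctx G Δ W (addC (addC C S b) {w} b) := by rw [h2]; exact hctx
    obtain ⟨F2, hF2, hb2⟩ := one_step hq hW hw (hWw w hw) hctx2 hF1.1
    rw [h2] at hF2
    refine ⟨F2, hF1.trans hF2 ?_, ?_⟩
    · intro z _
      unfold addC
      split_ifs with h3 h4 h4
      · exact Finset.Subset.refl _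
      · exact absurd (Finset.mem_insert_of_mem h3) h4
      · exact Finset.subset_insert _ _
      · exact Finset.Subset.refl _
    · intro t ht hΨt x hx
      have hF1b : ∀ y, |F1 y| ≤ ((1 + s) ^ S.card * t) * fV Q G W y := by
        intro y
        by_cases hy : ∀ z ∈ S, y z ≠ b
        · have h5 := hb1 t ht hΨt y hy
          have h6 := hΨt y
          calc |F1 y| = |(F1 y - Ψ y) + Ψ y| := by ring_nf
            _ ≤ |F1 y - Ψ y| + |Ψ y| := abs_add_le _ _
            _ ≤ ((1 + s) ^ S.card - 1) * t * fV Q G W y + t * fV Q G W y := add_le_add h5 h6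
            _ = _ := by ring
        · push Not at hy
          obtain ⟨z, hz, hyz⟩ := hy
          have h7 : F1 y = 0 := by
            by_contra h8
            have := hF1.1.lst y h8 z (hSW (Finset.mem_insert_of_mem hz))
            simp [addC, hz, hyz] at this
          rw [h7, abs_zero]
          have := hW.nonneg y
          positivity
      have h9 := hb2 ((1 + s) ^ S.card * t) (by positivity) hF1b x
        (hx w (Finset.mem_insert_self _ _))
      have h10 := hb1 t ht hΨt x (fun z hz => hx z (Finset.mem_insert_of_mem hz))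
      rw [Finset.card_insert_of_notMem hwS, pow_succ]
      calc |F2 x - Ψ x| = |(F2 x - F1 x) + (F1 x - Ψ x)| := by ring_nf
        _ ≤ |F2 x - F1 x| + |F1 x - Ψ x| := abs_add_le _ _
        _ ≤ s * ((1 + s) ^ S.card * t) * fV Q G W x +
            ((1 + s) ^ S.card - 1) * t * fV Q G W x := add_le_add h9 h10
        _ = _ := by ring

/-- a minimal bound exists -/
theorem exists_min {X : Type} [Fintype X] (Ψ f : X → ℝ) (hf : ∀ x, 0 ≤ f x)
    (hsupp : ∀ x, Ψ x ≠ 0 → 0 < f x) :
    ∃ t : ℝ, 0 ≤ t ∧ (∀ x, |Ψ x| ≤ t * f x) ∧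
      ∀ t' : ℝ, 0 ≤ t' → (∀ x, |Ψ x| ≤ t' * f x) → t ≤ t' := by
  classical
  by_cases hne : Nonempty X
  · obtain ⟨x0, -, hx0⟩ := Finset.exists_max_image (Finset.univ : Finset X)
      (fun x => |Ψ x| / f x) Finset.univ_nonempty
    refine ⟨|Ψ x0| / f x0, div_nonneg (abs_nonneg _) (hf _), ?_, ?_⟩
    · intro x
      by_cases hx : Ψ x = 0
      · rw [hx, abs_zero]
        exact mul_nonneg (div_nonneg (abs_nonneg _) (hf _)) (hf _)
      · have h1 := hx0 x (Finset.mem_univ _)
        rwa [div_le_iff₀ (hsupp x hx)] at h1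
    · intro t' ht' h
      by_cases hx : Ψ x0 = 0
      · rw [hx, abs_zero, zero_div]
        exact ht'
      · rw [div_le_iff₀ (hsupp x0 hx)]
        exact h x0
  · exact ⟨0, le_refl _, fun x => absurd ⟨x⟩ hne, fun t' ht' _ => ht'⟩

end bound

end Pool.Agent.OD
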