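import Mathlib
import Pool.Agent.Helper42_OD.Bound

/-!
# Squad OD, CORE part 4: existence and positivity of the canonical law
-/

set_option autoImplicit false
set_option linter.unusedSectionVars false
set_option linter.unusedVariables false

open Finset

namespace Pool.Agent.OD

section core

variable {ι : Type} [Fintype ι] [DecidableEq ι]
variable {Q : Type} [Fintype Q] [DecidableEq Q]
variable {G : SimpleGraph ι} [DecidableRel G.Adj] {Δ : ℕ}
variable {W V : Finset ι} {C C' : ι → Finset Q} {F F' L : (ι → Q) → ℝ}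

/-- the averaging estimate -/
theorem key_est {S : Finset ι} {u : ι} {A : Q → (ι → Q) → ℝ} {Ψ : (ι → Q) → ℝ} {x : ι → Q}
    {e R : ℝ} (he : 0 ≤ e)
    (hA0 : ∀ b, b ∉ C u → (∃ z ∈ S, x z = b) → A b x = 0)
    (hAb : ∀ b, b ∉ C u → (∀ z ∈ S, x z ≠ b) → |A b x - Ψ x| ≤ e)
    (hsum : ∑ b ∈ Finset.univ.filter (fun b => b ∉ C u), A b x = R)
    (hcard : (C u).card + S.card ≤ Δ) :
    ∃ n : ℝ, (Fintype.card Q : ℝ) - Δ ≤ n ∧ n ≤ Fintype.card Q ∧ |n * Ψ x - R| ≤ n * e := by
  classical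
  set B : Finset Q := Finset.univ.filter (fun b => b ∉ C u ∧ ∀ z ∈ S, x z ≠ b) with hB
  refine ⟨B.card, ?_, ?_, ?_⟩
  · have h1 : (Finset.univ : Finset Q) ⊆ B ∪ (C u ∪ S.image x) := by
      intro b _
      by_cases hb : b ∈ B
      · exact Finset.mem_union_left _ hb
      · refine Finset.mem_union_right _ ?_
        by_cases hbC : b ∈ C u
        · exact Finset.mem_union_left _ hbC
        · refine Finset.mem_union_right _ ?_
          have : ¬ (∀ z ∈ S, x z ≠ b) := fun h => hb (by simp [hB, hbC]; exact h)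
          push Not at this
          obtain ⟨z, hz, hzb⟩ := this
          exact Finset.mem_image.2 ⟨z, hz, hzb⟩
    have h2 := Finset.card_le_card h1
    have h3 := Finset.card_union_le B (C u ∪ S.image x)
    have h4 := Finset.card_union_le (C u) (S.image x)
    have h5 := Finset.card_image_le (s := S) (f := x)
    rw [Finset.card_univ] at h2
    have h6 : Fintype.card Q ≤ B.card + Δ := by omega
    have h7 : (Fintype.card Q : ℝ) ≤ B.card + Δ := by exact_mod_cast h6
    linarith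
  · exact_mod_cast Finset.card_le_univ B
  · have h1 : ∑ b ∈ Finset.univ.filter (fun b => b ∉ C u), A b x = ∑ b ∈ B, A b x := by
      symm
      refine Finset.sum_subset ?_ ?_
      · intro b hb
        rw [hB, Finset.mem_filter] at hb
        exact Finset.mem_filter.2 ⟨Finset.mem_univ _, hb.2.1⟩
      · intro b hb hb'
        have hbC := (Finset.mem_filter.1 hb).2
        refine hA0 b hbC ?_
        by_contra hcon
        push Not at hcon
        exact hb' (by rw [hB, Finset.mem_filter]; exact ⟨Finset.mem_univ _, hbC, hcon⟩)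
    rw [← hsum, h1]
    have h2 : (B.card : ℝ) * Ψ x - ∑ b ∈ B, A b x = ∑ b ∈ B, (Ψ x - A b x) := by
      rw [Finset.sum_sub_distrib]
      simp
    rw [h2]
    refine (Finset.abs_sum_le_sum_abs _ _).trans ?_
    have h3 : ∀ b ∈ B, |Ψ x - A b x| ≤ e := by
      intro b hb
      rw [hB, Finset.mem_filter] at hb
      rw [abs_sub_comm]
      exact hAb b hb.2.1 hb.2.2
    refine (Finset.sum_le_sum h3).trans ?_
    simp

/-- solution of the insertion equation -/
theorem solve [Nonempty Q] (hq : 22 * Δ ≤ Fintype.card Q) (hW : Good Q G Δ W)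
    (hWw : ∀ w ∈ W, ∀ x : ι → Q, 0 ≤ fV Q G (W.erase w) x) {u : ι} (hu : u ∉ W)
    (hctx : Ctx G Δ (insert u W) C) {Φ : (ι → Q) → ℝ} (hΦ : InSub G W C Φ) :
    ∃ (Ψ : (ι → Q) → ℝ) (A : Q → (ι → Q) → ℝ), InSub G W C Ψ ∧
      (∀ b, b ∉ C u → IsRep G W (addC C (W.filter (G.Adj u)) b) Ψ (A b)) ∧
      (∀ x, ∑ b ∈ Finset.univ.filter (fun b => b ∉ C u), A b x =
        ((Fintype.card Q : ℝ) - (C u).card) * Φ x) ∧
      ∀ t' : ℝ, 0 ≤ t' → (∀ x, |Φ x| ≤ t' * fV Q G W x) →
        ∃ t : ℝ, 0 ≤ t ∧ t ≤ (((Fintype.card Q : ℝ) - (C u).card) /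
            ((Fintype.card Q : ℝ) - Δ)) * (25 / 22) * t' ∧
          (∀ x, |Ψ x| ≤ t * fV Q G W x) ∧
          ∀ b, b ∉ C u → ∀ x, (∀ z ∈ W.filter (G.Adj u), x z ≠ b) →
            |A b x - Ψ x| ≤ 3 / 25 * t * fV Q G W x := by
  classical
  have hqr : 22 * (Δ : ℝ) ≤ Fintype.card Q := by exact_mod_cast hq
  have hq0 : (0 : ℝ) < Fintype.card Q := by exact_mod_cast Fintype.card_pos
  have hΔ0 : (0 : ℝ) ≤ Δ := Nat.cast_nonneg _
  have hm : (0 : ℝ) < (Fintype.card Q : ℝ) - Δ := by linarith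
  set S : Finset ι := W.filter (G.Adj u) with hS
  set f : (ι → Q) → ℝ := fV Q G W with hf
  have hf0 : ∀ x, 0 ≤ f x := hW.nonneg
  have hcard : (C u).card + S.card ≤ Δ := by
    have h1 := hctx u (Finset.mem_insert_self _ _)
    refine le_trans (Nat.add_le_add_left (Finset.card_le_card ?_) _) h1
    exact Finset.filter_subset_filter _ (Finset.subset_insert _ _)
  have hCu : ((C u).card : ℝ) ≤ Δ := by
    have : (C u).card ≤ Δ := by omega
    exact_mod_cast this
  have hpow : (1 + (392 / 165) / ((Fintype.card Q : ℝ) - Δ)) ^ S.card ≤ 28 / 25 :=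
    pow_bound rfl (by omega : S.card ≤ Δ) (by linarith) hm
  have hstep : ∀ b, b ∉ C u → ∀ Ψ : (ι → Q) → ℝ, InSub G W C Ψ →
      ∃ F, IsRep G W (addC C S b) Ψ F ∧ ∀ t : ℝ, 0 ≤ t → (∀ x, |Ψ x| ≤ t * f x) →
        ∀ x, (∀ z ∈ S, x z ≠ b) → |F x - Ψ x| ≤ 3 / 25 * t * f x := by
    intro b hb Ψ hΨ
    obtain ⟨F, hF, hFb⟩ := multi_step hq hW hWw (b := b) S (Finset.filter_subset _ _)
      (hctx.add hu b) hΨ
    refine ⟨F, hF, fun t ht h x hx => (hFb t ht h x hx).trans ?_⟩
    refine mul_le_mul_of_nonneg_right (mul_le_mul_of_nonneg_right ?_ ht) (hf0 x)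
    linarith
  set AA : Q → ((ι → Q) → ℝ) → ((ι → Q) → ℝ) := fun b Ψ =>
    if h : ∃ F, IsRep G W (addC C S b) Ψ F then Classical.choose h else 0 with hAAdef
  have hAA : ∀ b, b ∉ C u → ∀ Ψ : (ι → Q) → ℝ, InSub G W C Ψ →
      IsRep G W (addC C S b) Ψ (AA b Ψ) := by
    intro b hb Ψ hΨ
    obtain ⟨F, hF, -⟩ := hstep b hb Ψ hΨ
    have h : ∃ F, IsRep G W (addC C S b) Ψ F := ⟨F, hF⟩
    simp only [hAAdef, dif_pos h]
    exact Classical.choose_spec h
  have hAAb : ∀ b, b ∉ C u → ∀ Ψ : (ι → Q) → ℝ, InSub G W C Ψ → ∀ t : ℝ, 0 ≤ t →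
      (∀ x, |Ψ x| ≤ t * f x) → ∀ x, (∀ z ∈ S, x z ≠ b) →
      |AA b Ψ x - Ψ x| ≤ 3 / 25 * t * f x := by
    intro b hb Ψ hΨ
    obtain ⟨F, hF, hFb⟩ := hstep b hb Ψ hΨ
    rw [(hAA b hb Ψ hΨ).unique hF]
    exact hFb
  have hAA0 : ∀ b, b ∉ C u → ∀ Ψ : (ι → Q) → ℝ, InSub G W C Ψ → ∀ x,
      (∃ z ∈ S, x z = b) → AA b Ψ x = 0 := by
    rintro b hb Ψ hΨ x ⟨z, hz, hxz⟩
    by_contra h8
    have := (hAA b hb Ψ hΨ).1.lst x h8 z (Finset.mem_filter.1 hz).1
    simp [addC, hz, hxz] at this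
  let M : Submodule ℝ ((ι → Q) → ℝ) :=
    { carrier := {F | InSub G W C F}
      add_mem' := fun h h' => h.add h'
      zero_mem' := InSub.zero
      smul_mem' := fun c F h => InSub.smul h c }
  have hM : ∀ F, F ∈ M ↔ InSub G W C F := fun F => Iff.rfl
  have hKmem : ∀ Ψ : M, (∑ b ∈ Finset.univ.filter (fun b => b ∉ C u), AA b Ψ.1) ∈ M := by
    intro Ψ
    refine Submodule.sum_mem _ fun b hb => ?_
    have hb' := (Finset.mem_filter.1 hb).2
    refine (hAA b hb' Ψ.1 Ψ.2).1.mono fun z _ => ?_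
    unfold addC
    split_ifs
    · exact Finset.subset_insert _ _
    · exact Finset.Subset.refl _
  let K : M →ₗ[ℝ] M :=
    { toFun := fun Ψ => ⟨∑ b ∈ Finset.univ.filter (fun b => b ∉ C u), AA b Ψ.1, hKmem Ψ⟩
      map_add' := by
        intro Ψ Ψ'
        apply Subtype.ext
        simp only [Submodule.coe_add]
        rw [← Finset.sum_add_distrib]
        refine Finset.sum_congr rfl fun b hb => ?_
        have hb' := (Finset.mem_filter.1 hb).2
        exact (hAA b hb' _ (Ψ + Ψ').2).unique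
          ((hAA b hb' _ Ψ.2).add (hAA b hb' _ Ψ'.2))
      map_smul' := by
        intro c Ψ
        apply Subtype.ext
        simp only [Submodule.coe_smul, RingHom.id_apply]
        rw [Finset.smul_sum]
        refine Finset.sum_congr rfl fun b hb => ?_
        have hb' := (Finset.mem_filter.1 hb).2
        exact (hAA b hb' _ (c • Ψ).2).unique ((hAA b hb' _ Ψ.2).smul c) }
  -- the a priori estimate
  have hest : ∀ (Ψ Φ' : (ι → Q) → ℝ), InSub G W C Ψ →
      (∀ x, ∑ b ∈ Finset.univ.filter (fun b => b ∉ C u), AA b Ψ x =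
        ((Fintype.card Q : ℝ) - (C u).card) * Φ' x) →
      ∀ t' : ℝ, 0 ≤ t' → (∀ x, |Φ' x| ≤ t' * f x) →
      ∃ t : ℝ, 0 ≤ t ∧ t ≤ (((Fintype.card Q : ℝ) - (C u).card) /
            ((Fintype.card Q : ℝ) - Δ)) * (25 / 22) * t' ∧ (∀ x, |Ψ x| ≤ t * f x) := by
    intro Ψ Φ' hΨ hsum t' ht' hΦ'
    obtain ⟨t, ht, htb, hmin⟩ := exists_min Ψ f hf0 (fun x hx => hW.pos x (hΨ.prp x hx))
    refine ⟨t, ht, ?_, htb⟩
    have h1 : t ≤ ((Fintype.card Q : ℝ) - (C u).card) / ((Fintype.card Q : ℝ) - Δ) * t' +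
        3 / 25 * t := by
      have hLm : 0 ≤ ((Fintype.card Q : ℝ) - (C u).card) / ((Fintype.card Q : ℝ) - Δ) := by
        apply div_nonneg _ hm.le
        linarith
      refine hmin _ (by positivity) ?_
      intro x
      obtain ⟨n, hn1, hn2, hn3⟩ := key_est (C := C) (u := u) (S := S)
        (A := fun b => AA b Ψ) (Ψ := Ψ) (x := x) (e := 3 / 25 * t * f x)
        (by have := hf0 x; positivity)
        (fun b hb h => hAA0 b hb Ψ hΨ x h) (fun b hb h => hAAb b hb Ψ hΨ t ht htb x h)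
        (hsum x) hcard
      have hn0 : 0 < n := lt_of_lt_of_le hm hn1
      have hL0 : 0 ≤ (Fintype.card Q : ℝ) - (C u).card := by linarith
      have h2 : n * |Ψ x| ≤ ((Fintype.card Q : ℝ) - (C u).card) * (t' * f x) +
          n * (3 / 25 * t * f x) := by
        have h3 : |n * Ψ x| ≤ |n * Ψ x - ((Fintype.card Q : ℝ) - (C u).card) * Φ' x| +
            |((Fintype.card Q : ℝ) - (C u).card) * Φ' x| := by
          have := abs_add_le (n * Ψ x - ((Fintype.card Q : ℝ) - (C u).card) * Φ' x)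
            (((Fintype.card Q : ℝ) - (C u).card) * Φ' x)
          simpa using this
        rw [abs_mul, abs_of_pos hn0, abs_mul (((Fintype.card Q : ℝ) - (C u).card)),
          abs_of_nonneg hL0] at h3
        have h4 := mul_le_mul_of_nonneg_left (hΦ' x) hL0
        linarith
      have h5 : ((Fintype.card Q : ℝ) - (C u).card) * (t' * f x) ≤
          n * (((Fintype.card Q : ℝ) - (C u).card) / ((Fintype.card Q : ℝ) - Δ) * t' * f x) := by
        have h6 : ((Fintype.card Q : ℝ) - (C u).card) =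
            ((Fintype.card Q : ℝ) - Δ) * (((Fintype.card Q : ℝ) - (C u).card) /
              ((Fintype.card Q : ℝ) - Δ)) := by
          field_simp
        have h7 : 0 ≤ ((Fintype.card Q : ℝ) - (C u).card) / ((Fintype.card Q : ℝ) - Δ) * t' *
            f x := by
          have := hf0 x
          positivity
        calc ((Fintype.card Q : ℝ) - (C u).card) * (t' * f x) =
            ((Fintype.card Q : ℝ) - Δ) * (((Fintype.card Q : ℝ) - (C u).card) /
              ((Fintype.card Q : ℝ) - Δ) * t' * f x) := by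
                nth_rewrite 1 [h6]
                ring
          _ ≤ _ := mul_le_mul_of_nonneg_right hn1 h7
      have h8 : n * |Ψ x| ≤ n * ((((Fintype.card Q : ℝ) - (C u).card) /
          ((Fintype.card Q : ℝ) - Δ) * t' + 3 / 25 * t) * f x) := by
        linarith
      exact le_of_mul_le_mul_left h8 hn0
    linarith
  have hinj : Function.Injective K := by
    rw [injective_iff_map_eq_zero]
    intro Ψ hΨ
    have h1 : ∀ x, ∑ b ∈ Finset.univ.filter (fun b => b ∉ C u), AA b Ψ.1 x =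
        ((Fintype.card Q : ℝ) - (C u).card) * (0 : (ι → Q) → ℝ) x := by
      intro x
      have h2 := congrFun (congrArg Subtype.val hΨ) x
      simp only [K, LinearMap.coe_mk, AddHom.coe_mk, Finset.sum_apply] at h2
      rw [h2]
      simp
    obtain ⟨t, ht, ht2, ht3⟩ := hest Ψ.1 0 Ψ.2 h1 0 le_rfl (by intro x; simp)
    apply Subtype.ext
    funext x
    have h4 : t = 0 := le_antisymm (by simpa using ht2) ht
    have h5 := ht3 x
    rw [h4, zero_mul] at h5
    exact abs_nonpos_iff.1 h5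
  have hsurj : Function.Surjective K := LinearMap.injective_iff_surjective.1 hinj
  obtain ⟨Ψ, hΨ⟩ := hsurj ⟨((Fintype.card Q : ℝ) - (C u).card) • Φ, hΦ.smul _⟩
  have hsum : ∀ x, ∑ b ∈ Finset.univ.filter (fun b => b ∉ C u), AA b Ψ.1 x =
      ((Fintype.card Q : ℝ) - (C u).card) * Φ x := by
    intro x
    have h2 := congrFun (congrArg Subtype.val hΨ) x
    simp only [K, LinearMap.coe_mk, AddHom.coe_mk, Finset.sum_apply] at h2
    rw [h2]
    simp
  refine ⟨Ψ.1, fun b => AA b Ψ.1, Ψ.2, fun b hb => hAA b hb Ψ.1 Ψ.2, hsum, ?_⟩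
  intro t' ht' hΦ'
  obtain ⟨t, ht, ht2, ht3⟩ := hest Ψ.1 Φ Ψ.2 hsum t' ht' hΦ'
  exact ⟨t, ht, ht2, ht3, fun b hb x hx => hAAb b hb Ψ.1 Ψ.2 t ht ht3 x hx⟩

end core

end Pool.Agent.OD
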