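import Mathlib

/-!
# Squad OD (MP_ee7213_pr): 1-dependent colourings of the lattice

Definitions and the statements of the modules.
-/

set_option autoImplicit false

open MeasureTheory ProbabilityTheory

namespace Pool.Agent.OD

/-- Adjacency in the lattice: `l1` distance one. -/
def LAdj {d : ℕ} (u v : Fin d → ℤ) : Prop := (∑ i, |u i - v i|) = 1

/-- `μ` is the law of a stationary 1-dependent `q`-colouring of the lattice of dimension `d`. -/
structure IsOneDep (d q : ℕ) (μ : Measure ((Fin d → ℤ) → Fin q)) : Prop where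
  /-- it is a probability measure -/
  prob : IsProbabilityMeasure μ
  /-- adjacent sites have different colours, almost surely -/
  proper : ∀ᵐ x ∂μ, ∀ u v : Fin d → ℤ, LAdj u v → x u ≠ x v
  /-- invariance under all translations -/
  stat : ∀ a : Fin d → ℤ, μ.map (fun x v => x (v + a)) = μ
  /-- the fields on two sets at distance larger than one are independent -/
  indep : ∀ A B : Set (Fin d → ℤ), (∀ u ∈ A, ∀ v ∈ B, u ≠ v ∧ ¬ LAdj u v) →
    IndepFun (fun (x : (Fin d → ℤ) → Fin q) (v : A) => x v)
      (fun (x : (Fin d → ℤ) → Fin q) (v : B) => x v) μ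

/-- A consistent family of cylinder probabilities: `p L x` is the probability that the field
agrees with `x` on the finite set `L`. -/
structure IsFam (d q : ℕ) (p : Finset (Fin d → ℤ) → ((Fin d → ℤ) → Fin q) → ℝ) : Prop where
  nonneg : ∀ L x, 0 ≤ p L x
  empty : ∀ x, p ∅ x = 1
  dep : ∀ L x y, (∀ v ∈ L, x v = y v) → p L x = p L y
  sum : ∀ L x v, v ∉ L → ∑ b, p (insert v L) (Function.update x v b) = p L x
  proper : ∀ L x u v, u ∈ L → v ∈ L → LAdj u v → x u = x v → p L x = 0
  shift : ∀ L x a, p (L.image fun v => v + a) x = p L (fun v => x (v + a))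
  mul : ∀ A B x, (∀ u ∈ A, ∀ v ∈ B, u ≠ v ∧ ¬ LAdj u v) → p (A ∪ B) x = p A x * p B x

/-- Module MEAS: extension of a consistent family to a measure. -/
def MeasStatement : Prop :=
  ∀ (d q : ℕ) (p : Finset (Fin d → ℤ) → ((Fin d → ℤ) → Fin q) → ℝ), 1 ≤ q → IsFam d q p →
    ∃ μ, IsOneDep d q μ

/-- Module LOW: the lower bound for the number of colours. -/
def LowStatement : Prop :=
  ∀ (d q : ℕ) (μ : Measure ((Fin d → ℤ) → Fin q)), 1 ≤ d → IsOneDep d q μ →
    (d + 1) ^ (d + 1) ≤ q * d ^ d

end Pool.Agent.OD
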