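import Mathlib
import Pool.Agent.Helper42_OD.Core

/-!
# Squad OD, CORE part 5: the canonical law is positive
-/

set_option autoImplicit false
set_option linter.unusedSectionVars false
set_option linter.unusedVariables false

open Finset

namespace Pool.Agent.OD

section main

variable {ι : Type} [Fintype ι] [DecidableEq ι]
variable {Q : Type} [Fintype Q] [DecidableEq Q]
variable {G : SimpleGraph ι} [DecidableRel G.Adj] {Δ : ℕ}
variable {W V : Finset ι} {C C' : ι → Finset Q} {F F' L : (ι → Q) → ℝ}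

/-- extension with its bound -/
theorem ext_bound [Nonempty Q] (hq : 22 * Δ ≤ Fintype.card Q) (hW : Good Q G Δ W)
    (hWw : ∀ w ∈ W, ∀ x : ι → Q, 0 ≤ fV Q G (W.erase w) x) {u : ι} (hu : u ∉ W)
    (hctx : Ctx G Δ (insert u W) C) {Φ : (ι → Q) → ℝ} (hΦ : InSub G W C Φ) :
    ∃ F, IsRep G (insert u W) C Φ F ∧ ∀ t : ℝ, 0 ≤ t →
      (∀ x, |Φ x| ≤ t * fV Q G W x) → ∀ x,
      |F x| ≤ ((Fintype.card Q : ℝ) / ((Fintype.card Q : ℝ) - Δ)) * (14 / 11) * t *
        fV Q G W x := by
  have hqr : 22 * (Δ : ℝ) ≤ Fintype.card Q := by exact_mod_cast hq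
  have hq0 : (0 : ℝ) < Fintype.card Q := by exact_mod_cast Fintype.card_pos
  have hΔ0 : (0 : ℝ) ≤ Δ := Nat.cast_nonneg _
  have hm : (0 : ℝ) < (Fintype.card Q : ℝ) - Δ := by linarith
  have hCu : ((C u).card : ℝ) ≤ Δ := by
    have h1 := hctx u (Finset.mem_insert_self _ _)
    have : (C u).card ≤ Δ := by omega
    exact_mod_cast this
  have hL : (0 : ℝ) < (Fintype.card Q : ℝ) - (C u).card := by linarith
  obtain ⟨Ψ, A, hΨ, hA, hsum, hb⟩ := solve hq hW hWw hu hctx hΦ
  have hS : ∀ z, z ∈ W.filter (G.Adj u) ↔ z ∈ W ∧ G.Adj u z := fun z => Finset.mem_filter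
  refine ⟨_, rep_insert hu hS hA hΦ hL.ne' hsum, ?_⟩
  intro t' ht' hΦ' x
  obtain ⟨t, ht, ht2, ht3, ht4⟩ := hb t' ht' hΦ'
  have hf := hW.nonneg x
  have hm2 : 0 ≤ (Fintype.card Q : ℝ) / ((Fintype.card Q : ℝ) - Δ) := by positivity
  split_ifs with hx
  · rw [abs_zero]
    positivity
  · have h1 : |A (x u) x| ≤ 28 / 25 * t * fV Q G W x := by
      by_cases h2 : ∀ z ∈ W.filter (G.Adj u), x z ≠ x u
      · have h3 := ht4 (x u) hx x h2
        have h4 := ht3 x
        calc |A (x u) x| = |(A (x u) x - Ψ x) + Ψ x| := by ring_nf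
          _ ≤ |A (x u) x - Ψ x| + |Ψ x| := abs_add_le _ _
          _ ≤ 3 / 25 * t * fV Q G W x + t * fV Q G W x := add_le_add h3 h4
          _ = _ := by ring
      · push Not at h2
        obtain ⟨z, hz, hxz⟩ := h2
        have h5 : A (x u) x = 0 := by
          by_contra h8
          have := (hA (x u) hx).1.lst x h8 z (Finset.mem_filter.1 hz).1
          rw [addC, if_pos hz, Finset.mem_insert, not_or] at this
          exact this.1 hxz
        rw [h5, abs_zero]
        positivity
    rw [abs_mul, abs_of_nonneg (div_nonneg hq0.le hL.le)]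
    calc (Fintype.card Q : ℝ) / ((Fintype.card Q : ℝ) - (C u).card) * |A (x u) x|
        ≤ (Fintype.card Q : ℝ) / ((Fintype.card Q : ℝ) - (C u).card) *
          (28 / 25 * t * fV Q G W x) := mul_le_mul_of_nonneg_left h1 (by positivity)
      _ ≤ (Fintype.card Q : ℝ) / ((Fintype.card Q : ℝ) - (C u).card) *
          (28 / 25 * ((((Fintype.card Q : ℝ) - (C u).card) /
            ((Fintype.card Q : ℝ) - Δ)) * (25 / 22) * t') * fV Q G W x) := by
          refine mul_le_mul_of_nonneg_left ?_ (by positivity)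
          refine mul_le_mul_of_nonneg_right ?_ hf
          linarith
      _ = _ := by
          field_simp
          ring

/-- the Harnack inequality -/
theorem harnack [Nonempty Q] (hq : 22 * Δ ≤ Fintype.card Q) (hW : Good Q G Δ W)
    (hWw : ∀ w ∈ W, ∀ x : ι → Q, 0 ≤ fV Q G (W.erase w) x) {u : ι} (hu : u ∉ W)
    (hctx : Ctx G Δ (insert u W) (fun _ => (∅ : Finset Q))) (x : ι → Q) :
    (fV Q G (insert u W) x ≤ 4 / 3 * fV Q G W x) ∧
    ((∀ z ∈ insert u W, ∀ w ∈ insert u W, G.Adj z w → x z ≠ x w) →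
      5 / 7 * fV Q G W x ≤ fV Q G (insert u W) x) := by
  have hqr : 22 * (Δ : ℝ) ≤ Fintype.card Q := by exact_mod_cast hq
  have hq0 : (0 : ℝ) < Fintype.card Q := by exact_mod_cast Fintype.card_pos
  have hΔ0 : (0 : ℝ) ≤ Δ := Nat.cast_nonneg _
  have hm : (0 : ℝ) < (Fintype.card Q : ℝ) - Δ := by linarith
  obtain ⟨Ψ, A, hΨ, hA, hsum, hb⟩ := solve hq hW hWw hu hctx hW.rep.1
  have hS : ∀ z, z ∈ W.filter (G.Adj u) ↔ z ∈ W ∧ G.Adj u z := fun z => Finset.mem_filter
  have hL : ((Fintype.card Q : ℝ) - ((∅ : Finset Q)).card) = Fintype.card Q := by simp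
  have hf := hW.nonneg x
  have hrep1 := rep_insert hu hS hA hW.rep.1 (by rw [hL]; exact hq0.ne') hsum
  have hrep2 : IsRep G (insert u W) (fun _ => (∅ : Finset Q)) (fun _ => 1) _ :=
    IsRep.lift (u := u) (by rw [Finset.erase_insert hu]; exact hW.rep) (fun _ _ => rfl) hrep1
  have hfV := fV_eq hrep2
  have hform : fV Q G (insert u W) x = A (x u) x := by
    rw [hfV]
    simp only [Finset.notMem_empty, if_false, hL]
    rw [div_self hq0.ne', one_mul]
  obtain ⟨t, ht, ht2, ht3, ht4⟩ := hb 1 zero_le_one (by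
    intro y
    rw [one_mul, abs_of_nonneg (hW.nonneg y)])
  rw [hL] at ht2
  have hqm : (Fintype.card Q : ℝ) / ((Fintype.card Q : ℝ) - Δ) ≤ 22 / 21 := by
    rw [div_le_div_iff₀ hm (by norm_num)]
    linarith
  have ht5 : t ≤ 25 / 21 := by
    refine ht2.trans ?_
    linarith
  have key : (∀ z ∈ insert u W, ∀ w ∈ insert u W, G.Adj z w → x z ≠ x w) →
      ∃ n : ℝ, (Fintype.card Q : ℝ) - Δ ≤ n ∧ n ≤ Fintype.card Q ∧
        |fV Q G (insert u W) x - (Fintype.card Q : ℝ) / n * fV Q G W x| ≤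
          2 / 7 * fV Q G W x := by
    intro hx
    obtain ⟨n, hn1, hn2, hn3⟩ := key_est (Δ := Δ) (C := fun _ => (∅ : Finset Q)) (u := u)
      (S := W.filter (G.Adj u)) (A := A) (Ψ := Ψ) (x := x) (e := 3 / 25 * t * fV Q G W x)
      (by positivity)
      (fun b hb h => by
        obtain ⟨z, hz, hxz⟩ := h
        by_contra h8
        have := (hA b hb).1.lst x h8 z (Finset.mem_filter.1 hz).1
        rw [addC, if_pos hz, Finset.mem_insert, not_or] at this
        exact this.1 hxz)
      (fun b hb h => ht4 b hb x h) (hsum x) (by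
        have h1 := hctx u (Finset.mem_insert_self _ _)
        refine le_trans (Nat.add_le_add_left (Finset.card_le_card ?_) _) h1
        exact Finset.filter_subset_filter _ (Finset.subset_insert _ _))
    have hn0 : 0 < n := lt_of_lt_of_le hm hn1
    refine ⟨n, hn1, hn2, ?_⟩
    rw [hL] at hn3
    have h1 : |Ψ x - (Fintype.card Q : ℝ) / n * fV Q G W x| ≤ 3 / 25 * t * fV Q G W x := by
      have h2 : Ψ x - (Fintype.card Q : ℝ) / n * fV Q G W x =
          (n * Ψ x - (Fintype.card Q : ℝ) * fV Q G W x) / n := by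
        field_simp
      rw [h2, abs_div, abs_of_pos hn0, div_le_iff₀ hn0]
      linarith
    have h3 : |A (x u) x - Ψ x| ≤ 3 / 25 * t * fV Q G W x := by
      refine ht4 (x u) (Finset.notMem_empty _) x ?_
      intro z hz
      have hz' := Finset.mem_filter.1 hz
      exact (hx u (Finset.mem_insert_self _ _) z (Finset.mem_insert_of_mem hz'.1) hz'.2).symm
    rw [hform]
    calc |A (x u) x - (Fintype.card Q : ℝ) / n * fV Q G W x|
        = |(A (x u) x - Ψ x) + (Ψ x - (Fintype.card Q : ℝ) / n * fV Q G W x)| := by ring_nf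
      _ ≤ |A (x u) x - Ψ x| + |Ψ x - (Fintype.card Q : ℝ) / n * fV Q G W x| := abs_add_le _ _
      _ ≤ 3 / 25 * t * fV Q G W x + 3 / 25 * t * fV Q G W x := add_le_add h3 h1
      _ = (6 / 25 * t) * fV Q G W x := by ring
      _ ≤ 2 / 7 * fV Q G W x := by
          refine mul_le_mul_of_nonneg_right ?_ hf
          linarith
  constructor
  · by_cases h0 : fV Q G (insert u W) x = 0
    · rw [h0]
      positivity
    · have hx := (fV_rep ⟨_, hrep2⟩).1.prp x h0
      obtain ⟨n, hn1, hn2, hn3⟩ := key hx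
      have hn0 : 0 < n := lt_of_lt_of_le hm hn1
      have h1 := (abs_le.1 hn3).2
      have h2 : (Fintype.card Q : ℝ) / n ≤ 22 / 21 := by
        rw [div_le_div_iff₀ hn0 (by norm_num)]
        linarith
      have h3 := mul_le_mul_of_nonneg_right h2 hf
      linarith
  · intro hx
    obtain ⟨n, hn1, hn2, hn3⟩ := key hx
    have hn0 : 0 < n := lt_of_lt_of_le hm hn1
    have h1 := (abs_le.1 hn3).1
    have h2 : 1 ≤ (Fintype.card Q : ℝ) / n := by
      rw [le_div_iff₀ hn0, one_mul]
      exact hn2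
    have h3 := mul_le_mul_of_nonneg_right h2 hf
    linarith

/-- THE MAIN THEOREM on finite graphs: the canonical law exists and is positive. -/
theorem good_all [Nonempty Q] (hq : 22 * Δ ≤ Fintype.card Q)
    (hdeg : ∀ z, (Finset.univ.filter (G.Adj z)).card ≤ Δ) (V : Finset ι) : Good Q G Δ V := by
  induction V using Finset.strongInduction with
  | H V ih =>
    by_cases hV : V = ∅
    · subst hV
      have hrep : IsRep G (∅ : Finset ι) (fun _ => (∅ : Finset Q)) (fun _ => 1)
          (fun _ : ι → Q => (1 : ℝ)) :=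
        IsRep.refl ⟨fun _ _ _ => rfl, fun _ _ z hz => absurd hz (Finset.notMem_empty z),
          fun _ _ z hz => absurd hz (Finset.notMem_empty z)⟩
      refine ⟨fV_rep ⟨_, hrep⟩, ?_, ?_, ?_, ?_⟩
      · intro x _
        rw [fV_eq hrep]
        exact one_pos
      · intro u hu
        exact absurd hu (Finset.notMem_empty u)
      · intro u hu
        exact absurd hu (Finset.notMem_empty u)
      · intro C _ u hu
        exact absurd hu (Finset.notMem_empty u)
    · obtain ⟨u0, hu0⟩ := Finset.nonempty_iff_ne_empty.2 hV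
      have hGood : ∀ u ∈ V, Good Q G Δ (V.erase u) := fun u hu =>
        ih _ (Finset.erase_ssubset hu)
      have hnn : ∀ u ∈ V, ∀ w ∈ V.erase u, ∀ x : ι → Q,
          0 ≤ fV Q G ((V.erase u).erase w) x := by
        intro u hu w hw x
        refine (ih _ ?_).nonneg x
        exact (Finset.erase_ssubset hw).trans (Finset.erase_ssubset hu)
      have hctx0 : Ctx G Δ V (fun _ => (∅ : Finset Q)) := by
        intro z _
        rw [Finset.card_empty, zero_add]
        exact (Finset.card_le_card (Finset.filter_subset_filter _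
          (Finset.subset_univ _))).trans (hdeg z)
      have hext : ∀ C : ι → Finset Q, Ctx G Δ V C → ∀ u ∈ V, ∀ Φ : (ι → Q) → ℝ,
          InSub G (V.erase u) C Φ → ∃ F, IsRep G V C Φ F ∧ ∀ t : ℝ, 0 ≤ t →
          (∀ x, |Φ x| ≤ t * fV Q G (V.erase u) x) → ∀ x,
          |F x| ≤ ((Fintype.card Q : ℝ) / ((Fintype.card Q : ℝ) - Δ)) * (14 / 11) * t *
            fV Q G (V.erase u) x := by
        intro C hC u hu Φ hΦ
        have h1 := ext_bound (C := C) hq (hGood u hu) (hnn u hu) (Finset.notMem_erase u V)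
          (by rw [Finset.insert_erase hu]; exact hC) hΦ
        rwa [Finset.insert_erase hu] at h1
      have hhar : ∀ u ∈ V, ∀ x : ι → Q, (fV Q G V x ≤ 4 / 3 * fV Q G (V.erase u) x) ∧
          ((∀ z ∈ V, ∀ w ∈ V, G.Adj z w → x z ≠ x w) →
            5 / 7 * fV Q G (V.erase u) x ≤ fV Q G V x) := by
        intro u hu x
        have h1 := harnack hq (hGood u hu) (hnn u hu) (Finset.notMem_erase u V)
          (by rw [Finset.insert_erase hu]; exact hctx0) x
        rwa [Finset.insert_erase hu] at h1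
      have hrep : IsRep G V (fun _ => (∅ : Finset Q)) (fun _ => 1) (fV Q G V) := by
        obtain ⟨F, hF, -⟩ := hext _ hctx0 u0 hu0 _ (hGood u0 hu0).rep.1
        exact fV_rep ⟨F, IsRep.lift (hGood u0 hu0).rep (fun _ _ => rfl) hF⟩
      refine ⟨hrep, ?_, fun u hu x => (hhar u hu x).1, fun u hu x => (hhar u hu x).2, hext⟩
      intro x hx
      have h1 := (hhar u0 hu0 x).2 hx
      have h2 := (hGood u0 hu0).pos x (fun z hz w hw => hx z (Finset.mem_of_mem_erase hz) w
        (Finset.mem_of_mem_erase hw))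
      linarith

end main

end Pool.Agent.OD
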