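import Mathlib
import Pool.Agent.Helper42_OD.Main

/-!
# Squad OD, GLUE part 1: marginals, factorisation and transport of the canonical law
-/

set_option autoImplicit false
set_option linter.unusedSectionVars false
set_option linter.unusedVariables false

open Finset

namespace Pool.Agent.OD

section props

variable {ι : Type} [Fintype ι] [DecidableEq ι]
variable {Q : Type} [Fintype Q] [DecidableEq Q]
variable {G : SimpleGraph ι} {W V : Finset ι} {F F' L : (ι → Q) → ℝ}

/-- marginals of the canonical law -/
theorem fV_av [Nonempty Q] {u : ι}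
    (h : IsRep G V (fun _ => (∅ : Finset Q)) (fun _ => 1) (fV Q G V)) :
    av u (fV Q G V) = fV Q G (V.erase u) := by
  symm
  refine fV_eq ⟨h.1.aver u, ?_⟩
  intro V' hV' N hN
  have huV' : u ∉ V' := fun hh => (Finset.mem_erase.1 (hV' hh)).1 rfl
  rw [ip_av, av_of_indep u N (fun x b => hN.sub.indep huV' x b),
    h.2 V' (hV'.trans (Finset.erase_subset _ _)) N hN]

theorem fV_empty [Nonempty Q] : fV Q G (∅ : Finset ι) = fun _ => (1 : ℝ) :=
  fV_eq (IsRep.refl ⟨fun _ _ _ => rfl, fun _ _ z hz => absurd hz (Finset.notMem_empty z),
    fun _ _ z hz => absurd hz (Finset.notMem_empty z)⟩)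

/-- mixing two configurations -/
def mix (A : Finset ι) (x r : ι → Q) : ι → Q := fun z => if z ∈ A then x z else r z

theorem sum_mix (A : Finset ι) (H : (ι → Q) → ℝ) :
    ∑ r : ι → Q, ∑ x, H (mix A x r) = (Fintype.card (ι → Q) : ℝ) * ∑ x, H x := by
  have h1 : ∑ r : ι → Q, ∑ x, H (mix A x r) = ∑ r : ι → Q, ∑ x, H x := by
    rw [Finset.sum_comm, Finset.sum_comm (s := (Finset.univ : Finset (ι → Q))) (f := fun r x => H x),
      ← Fintype.sum_prod_type' (f := fun x r => H (mix A x r)),
      ← Fintype.sum_prod_type' (f := fun x (r : ι → Q) => H x)]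
    refine Fintype.sum_equiv
      { toFun := fun p : (ι → Q) × (ι → Q) => (mix A p.1 p.2, mix A p.2 p.1)
        invFun := fun p => (mix A p.1 p.2, mix A p.2 p.1)
        left_inv := ?_
        right_inv := ?_ } _ _ (fun p => rfl)
    · rintro ⟨x, r⟩
      simp only [Prod.mk.injEq]
      constructor <;> funext z <;> by_cases hz : z ∈ A <;> simp [mix, hz]
    · rintro ⟨x, r⟩
      simp only [Prod.mk.injEq]
      constructor <;> funext z <;> by_cases hz : z ∈ A <;> simp [mix, hz]
  rw [h1]
  simp

/-- the product of two canonical densities is orthogonal to null functions -/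
theorem ip_mul_nul [Nonempty Q] {A B : Finset ι} (hAB : Disjoint A B) (hA : A.Nonempty)
    (hfA : IsRep G A (fun _ => (∅ : Finset Q)) (fun _ => 1) F)
    (hfB : InSub G B (fun _ => (∅ : Finset Q)) F') {N : (ι → Q) → ℝ}
    (hN : IsNul G (A ∪ B) (fun _ => (∅ : Finset Q)) N) : ip (F * F') N = 0 := by
  have hcard : (Fintype.card (ι → Q) : ℝ) ≠ 0 := by
    exact_mod_cast Fintype.card_ne_zero
  obtain ⟨z0, hz0⟩ := hA
  have key : ∀ r : ι → Q, ∑ x, (fun x => (F * F') x * N x) (mix A x r) = 0 := by
    intro r
    -- the frozen function is a null function on `A`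
    set M : (ι → Q) → ℝ := fun x => F' (mix A x r) * N (mix A x r) with hM
    have hF'c : ∀ x y : ι → Q, F' (mix A x r) = F' (mix A y r) := by
      intro x y
      refine hfB.dep _ _ fun z hz => ?_
      have hzA : z ∉ A := fun h => (Finset.disjoint_left.1 hAB h) hz
      simp [mix, hzA]
    have hMnul : IsNul G A (fun _ => (∅ : Finset Q)) M := by
      refine ⟨⟨?_, ?_, ?_⟩, ?_⟩
      · intro x y hxy
        have : mix A x r = mix A y r := by
          funext z
          by_cases hz : z ∈ A
          · simp [mix, hz, hxy z hz]
          · simp [mix, hz]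
        simp only [hM, this]
      · intro x hx z hz
        exact Finset.notMem_empty _
      · intro x hx z hz w hw hadj
        have h1 : N (mix A x r) ≠ 0 := by
          intro h
          exact hx (by simp [hM, h])
        have h2 := hN.sub.prp _ h1 z (Finset.mem_union_left _ hz) w
          (Finset.mem_union_left _ hw) hadj
        simpa [mix, hz, hw] using h2
      · intro z hz
        funext x
        have h3 := congrFun (hN.nul z (Finset.mem_union_left _ hz)) (mix A x r)
        simp only [av, Pi.zero_apply] at h3 ⊢
        have h4 : ∀ b, M (Function.update x z b) =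
            F' (mix A x r) * N (Function.update (mix A x r) z b) := by
          intro b
          have h5 : mix A (Function.update x z b) r = Function.update (mix A x r) z b := by
            funext w
            by_cases hw : w = z
            · subst hw
              simp [mix, hz]
            · by_cases hwA : w ∈ A
              · simp [mix, hwA, hw]
              · simp [mix, hwA, hw]
          simp only [hM]
          rw [hF'c (Function.update x z b) x, h5]
        simp only [h4]
        rw [← Finset.mul_sum, mul_div_assoc, h3, mul_zero]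
    have h6 := hfA.2 A (Finset.Subset.refl _) M hMnul
    rw [ip_nul (F := fun _ => (1 : ℝ)) hMnul hz0 (fun _ _ => rfl)] at h6
    rw [← h6]
    unfold ip
    refine Finset.sum_congr rfl fun x _ => ?_
    have h7 : F (mix A x r) = F x := by
      refine hfA.1.dep _ _ fun z hz => ?_
      simp [mix, hz]
    simp only [Pi.mul_apply, hM, h7]
    ring
  have h := sum_mix A (fun x => (F * F') x * N x)
  rw [Finset.sum_congr rfl fun r _ => key r, Finset.sum_const_zero] at h
  exact (mul_eq_zero.1 h.symm).resolve_left hcard

/-- FACTORISATION over sets without edges between them -/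
theorem fV_mul [Nonempty Q]
    (hrep : ∀ V : Finset ι, IsRep G V (fun _ => (∅ : Finset Q)) (fun _ => 1) (fV Q G V)) :
    ∀ (n : ℕ) (A B : Finset ι), A.card + B.card = n → Disjoint A B →
      (∀ z ∈ A, ∀ w ∈ B, ¬ G.Adj z w) → fV Q G (A ∪ B) = fV Q G A * fV Q G B := by
  intro n
  induction n with
  | zero =>
    intro A B hn hAB _
    have hA : A = ∅ := Finset.card_eq_zero.1 (by omega)
    have hB : B = ∅ := Finset.card_eq_zero.1 (by omega)
    subst hA hB
    funext x
    simp [fV_empty]
  | succ n ih =>
    intro A B hn hAB hno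
    by_cases hA : A = ∅
    · subst hA
      funext x
      simp [fV_empty]
    by_cases hB : B = ∅
    · subst hB
      funext x
      simp [fV_empty]
    obtain ⟨a, ha⟩ := Finset.nonempty_iff_ne_empty.2 hA
    have hprod : InSub G (A ∪ B) (fun _ => (∅ : Finset Q)) (fV Q G A * fV Q G B) := by
      refine ⟨?_, fun _ _ _ _ => Finset.notMem_empty _, ?_⟩
      · intro x y hxy
        simp only [Pi.mul_apply]
        rw [(hrep A).1.dep x y fun z hz => hxy z (Finset.mem_union_left _ hz),
          (hrep B).1.dep x y fun z hz => hxy z (Finset.mem_union_right _ hz)]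
      · intro x hx z hz w hw hadj
        simp only [Pi.mul_apply] at hx
        have h1 : fV Q G A x ≠ 0 := left_ne_zero_of_mul hx
        have h2 : fV Q G B x ≠ 0 := right_ne_zero_of_mul hx
        rcases Finset.mem_union.1 hz with hz | hz <;> rcases Finset.mem_union.1 hw with hw | hw
        · exact (hrep A).1.prp x h1 z hz w hw hadj
        · exact absurd hadj (hno z hz w hw)
        · exact absurd hadj.symm (hno w hw z hz)
        · exact (hrep B).1.prp x h2 z hz w hw hadj
    have hD : IsNul G (A ∪ B) (fun _ => (∅ : Finset Q))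
        (fV Q G (A ∪ B) - fV Q G A * fV Q G B) := by
      refine ⟨(hrep _).1.sub hprod, ?_⟩
      intro z hz
      rw [av_sub, fV_av (hrep _), sub_eq_zero]
      by_cases hzA : z ∈ A
      · have hzB : z ∉ B := Finset.disjoint_left.1 hAB hzA
        have h1 : av z (fV Q G A * fV Q G B) = fV Q G (A.erase z) * fV Q G B := by
          rw [← fV_av (hrep A) (u := z)]
          funext x
          simp only [av, Pi.mul_apply]
          rw [div_mul_eq_mul_div, Finset.sum_mul]
          congr 1
          refine Finset.sum_congr rfl fun b _ => ?_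
          rw [(hrep B).1.indep hzB x b]
        have h2 : (A ∪ B).erase z = A.erase z ∪ B := by
          rw [Finset.erase_union_distrib, Finset.erase_eq_of_notMem hzB]
        rw [h1, h2]
        refine ih _ _ ?_ (hAB.mono_left (Finset.erase_subset _ _))
          fun w hw v hv => hno w (Finset.mem_of_mem_erase hw) v hv
        rw [Finset.card_erase_of_mem hzA]
        have := Finset.card_pos.2 ⟨z, hzA⟩
        omega
      · have hzB : z ∈ B := (Finset.mem_union.1 hz).resolve_left hzA
        have h1 : av z (fV Q G A * fV Q G B) = fV Q G A * fV Q G (B.erase z) := by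
          rw [← fV_av (hrep B) (u := z)]
          funext x
          simp only [av, Pi.mul_apply]
          rw [← mul_div_assoc, Finset.mul_sum]
          congr 1
          refine Finset.sum_congr rfl fun b _ => ?_
          rw [(hrep A).1.indep hzA x b]
        have h2 : (A ∪ B).erase z = A ∪ B.erase z := by
          rw [Finset.erase_union_distrib, Finset.erase_eq_of_notMem hzA]
        rw [h1, h2]
        refine ih _ _ ?_ (hAB.mono_right (Finset.erase_subset _ _))
          fun w hw v hv => hno w hw v (Finset.mem_of_mem_erase hv)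
        rw [Finset.card_erase_of_mem hzB]
        have := Finset.card_pos.2 ⟨z, hzB⟩
        omega
    have h3 : ip (fV Q G (A ∪ B) - fV Q G A * fV Q G B)
        (fV Q G (A ∪ B) - fV Q G A * fV Q G B) = 0 := by
      rw [ip_sub_left, ip_mul_nul hAB ⟨a, ha⟩ (hrep A) (hrep B).1 hD,
        (hrep (A ∪ B)).2 _ (Finset.Subset.refl _) _ hD,
        ip_nul (F := fun _ => (1 : ℝ)) hD (Finset.mem_union_left _ ha) (fun _ _ => rfl),
        sub_zero]
    unfold ip at h3
    rw [Finset.sum_eq_zero_iff_of_nonneg (fun x _ => mul_self_nonneg _)] at h3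
    funext x
    have h4 := mul_self_eq_zero.1 (h3 x (Finset.mem_univ _))
    simp only [Pi.sub_apply] at h4
    exact sub_eq_zero.1 h4

end props

section transport

variable {ι ι' : Type} [Fintype ι] [DecidableEq ι] [Fintype ι'] [DecidableEq ι']
variable {Q : Type} [Fintype Q] [DecidableEq Q]
variable {G : SimpleGraph ι} {G' : SimpleGraph ι'}

theorem sum_comp {e : ι → ι'} (he : Function.Injective e) :
    ∃ c : ℝ, ∀ H : (ι → Q) → ℝ, ∑ y : ι' → Q, H (fun a => y (e a)) = c * ∑ x, H x := by
  classical
  refine ⟨(Fintype.card ({v : ι' // ¬ v ∈ Set.range e} → Q) : ℝ), fun H => ?_⟩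
  rw [Fintype.sum_equiv (Equiv.piEquivPiSubtypeProd (fun v => v ∈ Set.range e) (fun _ => Q))
    (fun y : ι' → Q => H (fun a => y (e a)))
    (fun p => H (fun a => p.1 ⟨e a, Set.mem_range_self a⟩)) (fun y => rfl),
    Fintype.sum_prod_type]
  simp only [Finset.sum_const, Finset.card_univ, nsmul_eq_mul]
  rw [← Finset.mul_sum]
  congr 1
  refine Fintype.sum_equiv ((Equiv.arrowCongr (Equiv.ofInjective e he) (Equiv.refl Q)).symm)
    _ _ fun p => ?_
  rfl

/-- TRANSPORT of the canonical law along an induced embedding -/
theorem fV_transport [Nonempty Q] {e : ι → ι'} (he : Function.Injective e)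
    (hadj : ∀ a b, G'.Adj (e a) (e b) ↔ G.Adj a b) (V : Finset ι)
    (hrep : IsRep G V (fun _ => (∅ : Finset Q)) (fun _ => 1) (fV Q G V)) (y : ι' → Q) :
    fV Q G' (V.image e) y = fV Q G V (fun a => y (e a)) := by
  classical
  obtain ⟨c, hc⟩ := sum_comp (Q := Q) he
  have q0 : Q := Classical.arbitrary Q
  have h : IsRep G' (V.image e) (fun _ => (∅ : Finset Q)) (fun _ => 1)
      (fun y => fV Q G V (fun a => y (e a))) := by
    refine ⟨⟨?_, fun _ _ _ _ => Finset.notMem_empty _, ?_⟩, ?_⟩
    · intro x y hxy
      exact hrep.1.dep _ _ fun z hz => hxy (e z) (Finset.mem_image_of_mem e hz)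
    · intro x hx z hz w hw hzw
      obtain ⟨z0, hz0, rfl⟩ := Finset.mem_image.1 hz
      obtain ⟨w0, hw0, rfl⟩ := Finset.mem_image.1 hw
      exact hrep.1.prp _ hx z0 hz0 w0 hw0 ((hadj z0 w0).1 hzw)
    · intro V' hV' N hN
      set U : Finset ι := V.filter (fun z => e z ∈ V') with hU
      set N0 : (ι → Q) → ℝ := fun x => N (Function.extend e x (fun _ => q0)) with hN0
      have hmem : ∀ v ∈ V', ∃ z ∈ U, e z = v := by
        intro v hv
        obtain ⟨z, hz, rfl⟩ := Finset.mem_image.1 (hV' hv)
        exact ⟨z, Finset.mem_filter.2 ⟨hz, hv⟩, rfl⟩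
      have hNN0 : ∀ y : ι' → Q, N y = N0 (fun a => y (e a)) := by
        intro y
        refine hN.sub.dep _ _ fun v hv => ?_
        obtain ⟨z, hz, rfl⟩ := hmem v hv
        rw [he.extend_apply]
      have hN0nul : IsNul G U (fun _ => (∅ : Finset Q)) N0 := by
        refine ⟨⟨?_, fun _ _ _ _ => Finset.notMem_empty _, ?_⟩, ?_⟩
        · intro x y hxy
          refine hN.sub.dep _ _ fun v hv => ?_
          obtain ⟨z, hz, rfl⟩ := hmem v hv
          rw [he.extend_apply, he.extend_apply]
          exact hxy z hz
        · intro x hx z hz w hw hzw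
          have h1 := hN.sub.prp _ hx (e z) (Finset.mem_filter.1 hz).2 (e w)
            (Finset.mem_filter.1 hw).2 ((hadj z w).2 hzw)
          rwa [he.extend_apply, he.extend_apply] at h1
        · intro z hz
          funext x
          have h1 := congrFun (hN.nul (e z) (Finset.mem_filter.1 hz).2)
            (Function.extend e x (fun _ => q0))
          simp only [av, Pi.zero_apply] at h1 ⊢
          rw [← h1]
          congr 1
          refine Finset.sum_congr rfl fun b _ => ?_
          refine hN.sub.dep _ _ fun v hv => ?_
          obtain ⟨w, hw, rfl⟩ := hmem v hv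
          rw [he.extend_apply]
          by_cases hwz : w = z
          · subst hwz
            simp
          · rw [Function.update_of_ne hwz, Function.update_of_ne (fun h => hwz (he h)),
              he.extend_apply]
      have h2 := hrep.2 U (Finset.filter_subset _ _) N0 hN0nul
      unfold ip at h2 ⊢
      simp only [hNN0]
      have h3 := hc (fun x => fV Q G V x * N0 x)
      have h4 := hc (fun x => 1 * N0 x)
      rw [h3, h4, h2]
  rw [fV_eq h]

end transport

end Pool.Agent.OD
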