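import Mathlib
import Pool.Agent.Helper42_OD.Props
import Pool.Agent.Helper42_OD.Defs

/-!
# Squad OD, GLUE part 2: the consistent family on an infinite graph and on the lattice
-/

set_option autoImplicit false
set_option linter.unusedSectionVars false
set_option linter.unusedVariables false

open Finset

namespace Pool.Agent.OD

section fam

variable {X : Type} [DecidableEq X] (H : SimpleGraph X) (Q : Type) [Fintype Q] [DecidableEq Q]

/-- the graph on a finite set of vertices -/
abbrev subG (L : Finset X) : SimpleGraph L := H.comap (fun a : L => (a : X))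

/-- cylinder probabilities of the canonical law -/
noncomputable def pF (L : Finset X) (x : X → Q) : ℝ :=
  fV Q (subG H L) Finset.univ (fun a : L => x a) / (Fintype.card Q : ℝ) ^ L.card

variable {H Q} {Δ : ℕ}

theorem good_sub [Nonempty Q] (hq : 22 * Δ ≤ Fintype.card Q)
    (hdeg : ∀ (v : X) (L : Finset X), (∀ w ∈ L, H.Adj v w) → L.card ≤ Δ) (L : Finset X)
    (V : Finset L) :
    IsRep (subG H L) V (fun _ => (∅ : Finset Q)) (fun _ => 1) (fV Q (subG H L) V) ∧
      ∀ x : L → Q, 0 ≤ fV Q (subG H L) V x := by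
  classical
  have h := good_all (Q := Q) (G := subG H L) (Δ := Δ) hq (by
    intro z
    have h1 := hdeg z ((Finset.univ.filter ((subG H L).Adj z)).map (Function.Embedding.subtype _))
      (by
        intro w hw
        obtain ⟨a, ha, rfl⟩ := Finset.mem_map.1 hw
        exact (Finset.mem_filter.1 ha).2)
    rwa [Finset.card_map] at h1) V
  exact ⟨h.rep, h.nonneg⟩

theorem pF_nonneg [Nonempty Q] (hq : 22 * Δ ≤ Fintype.card Q)
    (hdeg : ∀ (v : X) (L : Finset X), (∀ w ∈ L, H.Adj v w) → L.card ≤ Δ) (L : Finset X)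
    (x : X → Q) : 0 ≤ pF H Q L x :=
  div_nonneg ((good_sub hq hdeg L Finset.univ).2 _) (by positivity)

theorem pF_empty [Nonempty Q] (x : X → Q) : pF H Q ∅ x = 1 := by
  unfold pF
  have h : (Finset.univ : Finset (∅ : Finset X)) = ∅ := rfl
  rw [h, fV_empty]
  simp

theorem pF_dep (L : Finset X) (x y : X → Q) (h : ∀ v ∈ L, x v = y v) :
    pF H Q L x = pF H Q L y := by
  unfold pF
  have : (fun a : L => x a) = fun a : L => y a := funext fun a => h a a.2
  rw [this]

theorem pF_sum [Nonempty Q] (hq : 22 * Δ ≤ Fintype.card Q)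
    (hdeg : ∀ (v : X) (L : Finset X), (∀ w ∈ L, H.Adj v w) → L.card ≤ Δ) (L : Finset X)
    (x : X → Q) (v : X) (hv : v ∉ L) :
    ∑ b, pF H Q (insert v L) (Function.update x v b) = pF H Q L x := by
  have hq0 : (Fintype.card Q : ℝ) ≠ 0 := by exact_mod_cast Fintype.card_ne_zero
  set L' : Finset X := insert v L with hL'
  set v' : L' := ⟨v, Finset.mem_insert_self v L⟩ with hv'
  set e : L → L' := fun a => ⟨a, Finset.mem_insert_of_mem a.2⟩ with he
  have hinj : Function.Injective e := by
    intro a b hab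
    have := congrArg (fun z : L' => (z : X)) hab
    exact Subtype.ext this
  have himg : (Finset.univ : Finset L').erase v' = Finset.univ.image e := by
    ext a
    simp only [Finset.mem_erase, Finset.mem_univ, and_true, Finset.mem_image, true_and]
    constructor
    · intro ha
      have h1 : (a : X) ∈ L := by
        rcases Finset.mem_insert.1 a.2 with h | h
        · exact absurd (Subtype.ext h) ha
        · exact h
      exact ⟨⟨a, h1⟩, rfl⟩
    · rintro ⟨b, rfl⟩ hb
      have := congrArg (fun z : L' => (z : X)) hb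
      simp only [he, hv'] at this
      exact hv (this ▸ b.2)
  set y : L' → Q := fun a => x a with hy
  have hupd : ∀ b, (fun a : L' => Function.update x v b a) = Function.update y v' b := by
    intro b
    funext a
    by_cases ha : a = v'
    · rw [ha]
      simp [hv']
    · have : (a : X) ≠ v := fun h => ha (Subtype.ext h)
      rw [Function.update_of_ne ha, Function.update_of_ne this]
  have hav := congrFun (fV_av (u := v') (good_sub hq hdeg L' Finset.univ).1) y
  rw [himg, fV_transport (G := subG H L) (G' := subG H L') hinj (fun a b => Iff.rfl) Finset.univ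
    (good_sub hq hdeg L Finset.univ).1 y] at hav
  simp only [av] at hav
  rw [div_eq_iff hq0] at hav
  unfold pF
  simp only [hupd]
  rw [← Finset.sum_div, hav, hL', Finset.card_insert_of_notMem hv, pow_succ]
  rw [mul_div_mul_right _ _ hq0]

theorem pF_proper [Nonempty Q] (hq : 22 * Δ ≤ Fintype.card Q)
    (hdeg : ∀ (v : X) (L : Finset X), (∀ w ∈ L, H.Adj v w) → L.card ≤ Δ) (L : Finset X)
    (x : X → Q) (u v : X) (hu : u ∈ L) (hv : v ∈ L) (hadj : H.Adj u v) (hx : x u = x v) :
    pF H Q L x = 0 := by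
  unfold pF
  rw [div_eq_zero_iff]
  left
  by_contra h0
  exact (good_sub (Q := Q) hq hdeg L Finset.univ).1.1.prp _ h0 ⟨u, hu⟩ (Finset.mem_univ _)
    ⟨v, hv⟩ (Finset.mem_univ _) hadj hx

/-- invariance under automorphisms -/
theorem pF_aut [Nonempty Q] (hq : 22 * Δ ≤ Fintype.card Q)
    (hdeg : ∀ (v : X) (L : Finset X), (∀ w ∈ L, H.Adj v w) → L.card ≤ Δ) (L : Finset X)
    (τ : X → X) (hτ : Function.Injective τ) (hadj : ∀ u v, H.Adj (τ u) (τ v) ↔ H.Adj u v)
    (x : X → Q) : pF H Q (L.image τ) x = pF H Q L (fun v => x (τ v)) := by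
  set e : L → L.image τ := fun a => ⟨τ a, Finset.mem_image_of_mem τ a.2⟩ with he
  have hinj : Function.Injective e := by
    intro a b hab
    have := congrArg (fun z : L.image τ => (z : X)) hab
    exact Subtype.ext (hτ this)
  have himg : (Finset.univ : Finset (L.image τ)) = Finset.univ.image e := by
    ext a
    simp only [Finset.mem_univ, Finset.mem_image, true_and, true_iff]
    obtain ⟨b, hb, hab⟩ := Finset.mem_image.1 a.2
    exact ⟨⟨b, hb⟩, Subtype.ext hab⟩
  unfold pF
  rw [himg, fV_transport (G := subG H L) (G' := subG H (L.image τ)) hinj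
    (fun a b => hadj a b) Finset.univ (good_sub hq hdeg L Finset.univ).1 (fun a => x a),
    Finset.card_image_of_injective L hτ]

theorem pF_mul [Nonempty Q] (hq : 22 * Δ ≤ Fintype.card Q)
    (hdeg : ∀ (v : X) (L : Finset X), (∀ w ∈ L, H.Adj v w) → L.card ≤ Δ) (A B : Finset X)
    (x : X → Q) (hAB : ∀ u ∈ A, ∀ v ∈ B, u ≠ v ∧ ¬ H.Adj u v) :
    pF H Q (A ∪ B) x = pF H Q A x * pF H Q B x := by
  have hdisj : Disjoint A B := by
    rw [Finset.disjoint_left]
    intro a ha hb
    exact (hAB a ha a hb).1 rfl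
  have part : ∀ (A L : Finset X) (hAL : A ⊆ L) (y : L → Q),
      fV Q (subG H L) (Finset.univ.image
        (fun a : A => (⟨a, hAL a.2⟩ : L))) y =
      fV Q (subG H A) Finset.univ (fun a : A => y ⟨a, hAL a.2⟩) := by
    intro A L hAL y
    refine fV_transport (G := subG H A) (G' := subG H L) ?_ (fun a b => Iff.rfl) Finset.univ
      (good_sub hq hdeg A Finset.univ).1 y
    intro a b hab
    have := congrArg (fun z : L => (z : X)) hab
    exact Subtype.ext this
  have hA : A ⊆ A ∪ B := Finset.subset_union_left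
  have hB : B ⊆ A ∪ B := Finset.subset_union_right
  set A' : Finset (A ∪ B : Finset X) := Finset.univ.image (fun a : A => (⟨a, hA a.2⟩ : (A ∪ B : Finset X)))
    with hA'
  set B' : Finset (A ∪ B : Finset X) := Finset.univ.image (fun a : B => (⟨a, hB a.2⟩ : (A ∪ B : Finset X)))
    with hB'
  have hmA : ∀ z : (A ∪ B : Finset X), z ∈ A' ↔ (z : X) ∈ A := by
    intro z
    rw [hA', Finset.mem_image]
    constructor
    · rintro ⟨a, -, rfl⟩
      exact a.2
    · intro h
      exact ⟨⟨z, h⟩, Finset.mem_univ _, rfl⟩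
  have hmB : ∀ z : (A ∪ B : Finset X), z ∈ B' ↔ (z : X) ∈ B := by
    intro z
    rw [hB', Finset.mem_image]
    constructor
    · rintro ⟨a, -, rfl⟩
      exact a.2
    · intro h
      exact ⟨⟨z, h⟩, Finset.mem_univ _, rfl⟩
  have hdisj' : Disjoint A' B' := by
    rw [Finset.disjoint_left]
    intro z hz hz'
    exact Finset.disjoint_left.1 hdisj ((hmA z).1 hz) ((hmB z).1 hz')
  have huniv : (Finset.univ : Finset (A ∪ B : Finset X)) = A' ∪ B' := by
    ext z
    simp only [Finset.mem_univ, Finset.mem_union, true_iff]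
    rcases Finset.mem_union.1 z.2 with h | h
    · exact Or.inl ((hmA z).2 h)
    · exact Or.inr ((hmB z).2 h)
  have hno : ∀ z ∈ A', ∀ w ∈ B', ¬ (subG H (A ∪ B)).Adj z w := by
    intro z hz w hw hadj
    exact (hAB z ((hmA z).1 hz) w ((hmB w).1 hw)).2 hadj
  have hmul := fV_mul (Q := Q) (G := subG H (A ∪ B))
    (fun V => (good_sub hq hdeg (A ∪ B) V).1) _ A' B' rfl hdisj' hno
  unfold pF
  rw [huniv, hmul, Pi.mul_apply, part A (A ∪ B) hA, part B (A ∪ B) hB,
    Finset.card_union_of_disjoint hdisj, pow_add, div_mul_div_comm]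

end fam

section lattice

theorem LAdj.symm {d : ℕ} {u v : Fin d → ℤ} (h : LAdj u v) : LAdj v u := by
  unfold LAdj at h ⊢
  rw [← h]
  exact Finset.sum_congr rfl fun i _ => abs_sub_comm _ _

/-- the lattice -/
def latG (d : ℕ) : SimpleGraph (Fin d → ℤ) where
  Adj := LAdj
  symm := ⟨fun _ _ h => h.symm⟩
  loopless := ⟨fun u h => by simp [LAdj] at h⟩

theorem ladj_exists {d : ℕ} {v w : Fin d → ℤ} (h : LAdj v w) :
    ∃ (i : Fin d) (s : Bool), w = Function.update v i (v i + if s then 1 else -1) := by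
  unfold LAdj at h
  have h1 : ∃ i, v i ≠ w i := by
    by_contra hcon
    push Not at hcon
    simp [hcon] at h
  obtain ⟨i, hi⟩ := h1
  have h2 : 1 ≤ |v i - w i| := by
    have : 0 < |v i - w i| := abs_pos.2 (sub_ne_zero.2 hi)
    omega
  rw [← Finset.add_sum_erase _ _ (Finset.mem_univ i)] at h
  have h3 : 0 ≤ ∑ j ∈ Finset.univ.erase i, |v j - w j| :=
    Finset.sum_nonneg fun j _ => abs_nonneg _
  have h4 : ∑ j ∈ Finset.univ.erase i, |v j - w j| = 0 := by omega
  have h5 : |v i - w i| = 1 := by omega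
  rw [Finset.sum_eq_zero_iff_of_nonneg (fun j _ => abs_nonneg _)] at h4
  have h6 : ∀ j, j ≠ i → v j = w j := by
    intro j hj
    have := h4 j (Finset.mem_erase.2 ⟨hj, Finset.mem_univ _⟩)
    exact sub_eq_zero.1 (abs_eq_zero.1 this)
  rcases (abs_eq (by norm_num : (0 : ℤ) ≤ 1)).1 h5 with h7 | h7
  · refine ⟨i, false, ?_⟩
    funext j
    by_cases hj : j = i
    · subst hj
      simp
      omega
    · rw [Function.update_of_ne hj, h6 j hj]
  · refine ⟨i, true, ?_⟩
    funext j
    by_cases hj : j = i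
    · subst hj
      simp
      omega
    · rw [Function.update_of_ne hj, h6 j hj]

theorem lat_deg {d : ℕ} (v : Fin d → ℤ) (L : Finset (Fin d → ℤ))
    (h : ∀ w ∈ L, (latG d).Adj v w) : L.card ≤ 2 * d := by
  have h1 : L ⊆ (Finset.univ : Finset (Fin d × Bool)).image
      (fun p => Function.update v p.1 (v p.1 + if p.2 then 1 else -1)) := by
    intro w hw
    obtain ⟨i, s, hs⟩ := ladj_exists (h w hw)
    exact Finset.mem_image.2 ⟨(i, s), Finset.mem_univ _, hs.symm⟩
  refine (Finset.card_le_card h1).trans (Finset.card_image_le.trans ?_)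
  rw [Finset.card_univ, Fintype.card_prod, Fintype.card_fin, Fintype.card_bool, mul_comm]

/-- GLUE: the canonical family on the lattice -/
theorem isFam {d q : ℕ} (hq : 44 * d ≤ q) (hq1 : 1 ≤ q) :
    IsFam d q (pF (latG d) (Fin q)) := by
  haveI : Nonempty (Fin q) := ⟨⟨0, hq1⟩⟩
  have hq' : 22 * (2 * d) ≤ Fintype.card (Fin q) := by
    rw [Fintype.card_fin]
    omega
  refine ⟨?_, ?_, ?_, ?_, ?_, ?_, ?_⟩
  · exact fun L x => pF_nonneg hq' lat_deg L x
  · exact fun x => pF_empty x
  · exact fun L x y h => pF_dep L x y h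
  · exact fun L x v hv => pF_sum hq' lat_deg L x v hv
  · exact fun L x u v hu hv hadj hx => pF_proper hq' lat_deg L x u v hu hv hadj hx
  · intro L x a
    refine pF_aut hq' lat_deg L (fun v => v + a) (fun u v h => add_right_cancel h) ?_ x
    intro u v
    show LAdj _ _ ↔ LAdj _ _
    unfold LAdj
    simp
  · exact fun A B x h => pF_mul hq' lat_deg A B x h

end lattice

end Pool.Agent.OD
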